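import Pool.Agent.EqG.Main

/-!
# Consequences of the tower theorem
-/

namespace EqG

universe u

/-- every system with nonzero determinant is solvable -/
def SolNZ (A : Type u) [Group A] : Prop :=
  ∀ (n : ℕ) (w : Fin n → Monoid.Coprod A (FreeGroup (Fin n))), (expM w).det ≠ 0 → HasSol w

lemma SolNZ.solMod {A : Type u} [Group A] (h : SolNZ A) {m : ℕ} (hm : m = 0 ∨ m.Prime) :
    SolMod m A := by
  intro n w hw
  refine h n w (fun h0 => ?_)
  rw [h0, Int.cast_zero] at hw
  have : Nontrivial (ZMod m) := by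
    rcases hm with rfl | hm
    · exact inferInstanceAs (Nontrivial ℤ)
    · have := Fact.mk hm; infer_instance
  exact not_isUnit_zero hw

/-- no homomorphisms to `ℤ/p` implies none to `ℤ` -/
lemma hom_int_trivial {P : Type u} [Group P] {p : ℕ} (hp : p.Prime)
    (h : ∀ φ : P →* Multiplicative (ZMod p), φ = 1) (φ : P →* Multiplicative ℤ) : φ = 1 := by
  have hpz : (p : ℤ) ≠ 0 := by exact_mod_cast hp.ne_zero
  have h1 : ∀ φ : P →* Multiplicative ℤ, ∃ ψ : P →* Multiplicative ℤ, φ = ψ ^ p := by
    intro φ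
    have h2 := h ((AddMonoidHom.toMultiplicative (Int.castAddHom (ZMod p))).comp φ)
    have h3 : ∀ x, (p : ℤ) ∣ Multiplicative.toAdd (φ x) := by
      intro x
      have h4 := DFunLike.congr_fun h2 x
      exact (ZMod.intCast_zmod_eq_zero_iff_dvd _ p).1 (congrArg Multiplicative.toAdd h4)
    choose c hc using h3
    refine ⟨MonoidHom.mk' (fun x => Multiplicative.ofAdd (c x)) (fun x y => ?_), ?_⟩
    · apply Multiplicative.toAdd.injective
      rw [toAdd_mul, toAdd_ofAdd, toAdd_ofAdd, toAdd_ofAdd]
      apply mul_left_cancel₀ hpz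
      rw [mul_add, ← hc, ← hc, ← hc, map_mul, toAdd_mul]
    · ext x
      rw [MonoidHom.pow_apply]
      apply Multiplicative.toAdd.injective
      rw [toAdd_pow, hc]
      simp
  have h2 : ∀ n : ℕ, ∀ φ : P →* Multiplicative ℤ, ∀ x, (p : ℤ) ^ n ∣ Multiplicative.toAdd (φ x) := by
    intro n
    induction n with
    | zero => intro φ x; simp
    | succ n ih =>
      intro φ x
      obtain ⟨ψ, rfl⟩ := h1 φ
      rw [MonoidHom.pow_apply, toAdd_pow, nsmul_eq_mul, pow_succ, mul_comm]
      exact mul_dvd_mul_left _ (ih ψ x)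
  refine MonoidHom.ext (fun x => ?_)
  apply Multiplicative.toAdd.injective
  refine Int.eq_zero_of_abs_lt_dvd (h2 (Multiplicative.toAdd (φ x)).natAbs φ x) ?_
  rw [Int.abs_eq_natAbs]
  have h3 : (Multiplicative.toAdd (φ x)).natAbs < p ^ (Multiplicative.toAdd (φ x)).natAbs :=
    Nat.lt_pow_self hp.one_lt
  exact_mod_cast h3

/-- **The tower theorem for nonzero determinants.** -/
theorem solNZ_of_fg {A : Type u} [Group A]
    (hyp : ∀ P : Subgroup A, P.FG → (∀ φ : P →* Multiplicative ℤ, φ = 1) → SolNZ P) :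
    SolNZ A := by
  intro n w hw
  obtain ⟨p, hp1, hp⟩ := Nat.exists_infinite_primes ((expM w).det.natAbs + 1)
  have hdet : IsUnit (((expM w).det : ℤ) : ZMod p) := by
    have := Fact.mk hp
    rw [isUnit_iff_ne_zero, Ne, ZMod.intCast_zmod_eq_zero_iff_dvd]
    intro h
    have h1 := Int.natAbs_dvd_natAbs.2 h
    rw [Int.natAbs_natCast] at h1
    have h2 := Nat.le_of_dvd (Int.natAbs_pos.2 hw) h1
    omega
  exact solMod_of_fg (Or.inr hp)
    (fun P hP hφ => (hyp P hP (hom_int_trivial hp hφ)).solMod (Or.inr hp)) n w hdet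

/-- extensions by groups all of whose nontrivial f.g. subgroups have homomorphisms to `ℤ/m` -/
theorem solMod_of_extension {A : Type u} [Group A] {m : ℕ} (hm : m = 0 ∨ m.Prime)
    (N : Subgroup A) [N.Normal] (hN : SolMod m N)
    (hQ : ∀ P : Subgroup (A ⧸ N), P.FG → (∀ φ : P →* Multiplicative (ZMod m), φ = 1) → P = ⊥) :
    SolMod m A := by
  refine solMod_of_fg hm (fun P hP hφ => ?_)
  have h1 : P.map (QuotientGroup.mk' N) = ⊥ := by
    have hfg : (P.map (QuotientGroup.mk' N)).FG := by
      classical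
      obtain ⟨S, hS⟩ := hP
      exact ⟨S.image (QuotientGroup.mk' N), by
        rw [Finset.coe_image, ← MonoidHom.map_closure, hS]⟩
    refine hQ _ hfg (fun φ => ?_)
    have h2 := hφ (φ.comp ((QuotientGroup.mk' N).subgroupMap P))
    refine MonoidHom.ext (fun y => ?_)
    obtain ⟨x, rfl⟩ := (QuotientGroup.mk' N).subgroupMap_surjective P y
    exact DFunLike.congr_fun h2 x
  have h2 : P ≤ N := by
    intro x hx
    have h3 : QuotientGroup.mk' N x ∈ P.map (QuotientGroup.mk' N) := ⟨x, hx, rfl⟩
    rw [h1, Subgroup.mem_bot] at h3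
    exact (QuotientGroup.eq_one_iff x).1 h3
  exact hN.of_injective (Subgroup.inclusion h2) (Subgroup.inclusion_injective h2)

/-- divisible hull of a commutative group -/
lemma exists_divisible (P : Type u) [CommGroup P] : ∃ (G : Type u) (_ : CommGroup G) (φ : P →* G),
    Function.Injective φ ∧ ∀ (d : ℤ), d ≠ 0 → ∀ y : G, ∃ x : G, x ^ d = y := by
  let D := CharacterModule (Additive P) → AddCircle (1 : ℚ)
  let ev : Additive P →+ D :=
    { toFun := fun a χ => χ a
      map_zero' := by funext χ; exact map_zero χ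
      map_add' := fun a b => by funext χ; exact map_add χ a b }
  refine ⟨Multiplicative D, inferInstance, MonoidHom.mk' (fun a => Multiplicative.ofAdd
    (ev (Additive.ofMul a))) (fun a b => by rw [ofMul_mul, map_add, ofAdd_add]), ?_, ?_⟩
  · rw [injective_iff_map_eq_one]
    intro a ha
    by_contra hne
    obtain ⟨χ, hχ⟩ := CharacterModule.exists_character_apply_ne_zero_of_ne_zero
      (a := Additive.ofMul a) hne
    exact hχ (congrFun (congrArg Multiplicative.toAdd ha) χ)
  · intro d hd y
    refine ⟨Multiplicative.ofAdd (fun χ => DivisibleBy.div (Multiplicative.toAdd y χ) d), ?_⟩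
    apply Multiplicative.toAdd.injective
    funext χ
    exact DivisibleBy.div_cancel (Multiplicative.toAdd y χ) hd

/-- evaluation of words in commutative groups -/
lemma lift_comm {A : Type u} [Group A] {G : Type u} [CommGroup G] {n : ℕ} (φ : A →* G)
    (x : Fin n → G) (y : Monoid.Coprod A (FreeGroup (Fin n))) :
    Monoid.Coprod.lift φ (FreeGroup.lift x) y = Monoid.Coprod.lift φ 1 y
      * ∏ j, x j ^ (Multiplicative.toAdd (expo j y)) := by
  let ψ : Monoid.Coprod A (FreeGroup (Fin n)) →* G := Monoid.Coprod.lift φ 1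
    * ∏ j, (zpowersHom G (x j)).comp (expo j)
  have h : Monoid.Coprod.lift φ (FreeGroup.lift x) = ψ := by
    apply Monoid.Coprod.hom_ext
    · ext a
      simp [ψ, expo]
    · apply FreeGroup.ext_hom
      intro i
      simp [ψ, expo]
  have h1 := DFunLike.congr_fun h y
  rw [h1]
  simp [ψ]

/-- **Abelian groups.** -/
theorem solNZ_comm {A : Type u} [Group A] (hA : ∀ a b : A, a * b = b * a) : SolNZ A := by
  let _ : CommGroup A := { (inferInstance : Group A) with mul_comm := hA }
  obtain ⟨G, hG, φ, hφ, hdiv⟩ := exists_divisible A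
  intro n w hw
  have hy : ∀ i, ∃ y : G, y ^ (expM w).det = (Monoid.Coprod.lift φ 1 (w i))⁻¹ := fun i =>
    hdiv _ hw _
  choose y hy using hy
  refine ⟨G, inferInstance, φ, fun j => ∏ k, y k ^ ((expM w).adjugate j k), hφ, fun i => ?_⟩
  rw [lift_comm]
  have h1 : ∏ j, (∏ k, y k ^ ((expM w).adjugate j k)) ^ (Multiplicative.toAdd (expo j (w i)))
      = ∏ k, y k ^ ((expM w * (expM w).adjugate) i k) := by
    have h2 : ∀ j, (∏ k, y k ^ ((expM w).adjugate j k)) ^ (Multiplicative.toAdd (expo j (w i)))
        = ∏ k, y k ^ (expM w i j * (expM w).adjugate j k) := by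
      intro j
      rw [← Finset.prod_zpow]
      refine Finset.prod_congr rfl (fun k _ => ?_)
      rw [← zpow_mul, mul_comm]
      rfl
    rw [Finset.prod_congr rfl (fun j _ => h2 j), Finset.prod_comm]
    refine Finset.prod_congr rfl (fun k _ => ?_)
    rw [Matrix.mul_apply]
    have h4 := map_prod (zpowersHom G (y k))
      (fun j => Multiplicative.ofAdd (expM w i j * (expM w).adjugate j k)) Finset.univ
    rw [← ofAdd_sum] at h4
    exact h4.symm
  rw [h1, Matrix.mul_adjugate]
  have h3 : ∏ k, y k ^ (((expM w).det • (1 : Matrix (Fin n) (Fin n) ℤ)) i k)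
      = y i ^ (expM w).det := by
    rw [Finset.prod_eq_single i]
    · simp
    · intro k _ hk
      simp [Matrix.one_apply_ne hk.symm]
    · simp
  rw [h3, hy, mul_inv_cancel]

end EqG
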