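import Mathlib

/-!
# Systems of equations over groups
-/

namespace EqG

universe u

section

variable {A : Type u} [Group A] {ι : Type*} [DecidableEq ι]

/-- the exponent sum of the unknown `j` -/
noncomputable def expo (j : ι) : Monoid.Coprod A (FreeGroup ι) →* Multiplicative ℤ :=
  Monoid.Coprod.lift 1 (FreeGroup.lift (fun k => Multiplicative.ofAdd (if k = j then 1 else 0)))

/-- the exponent-sum matrix of a system -/
noncomputable def expM (w : ι → Monoid.Coprod A (FreeGroup ι)) : Matrix ι ι ℤ :=
  Matrix.of (fun i j => Multiplicative.toAdd (expo j (w i)))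

omit [DecidableEq ι] in
/-- the system has a solution in an overgroup -/
def HasSol (w : ι → Monoid.Coprod A (FreeGroup ι)) : Prop :=
  ∃ (G : Type u) (_ : Group G) (φ : A →* G) (x : ι → G), Function.Injective φ ∧
    ∀ i, Monoid.Coprod.lift φ (FreeGroup.lift x) (w i) = 1

end

/-- all systems whose determinant is a unit modulo `m` are solvable -/
def SolMod (m : ℕ) (A : Type u) [Group A] : Prop :=
  ∀ (n : ℕ) (w : Fin n → Monoid.Coprod A (FreeGroup (Fin n))),
    IsUnit (((expM w).det : ℤ) : ZMod m) → HasSol w

section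

variable {A : Type u} [Group A]

lemma SolMod.reindex {m : ℕ} (h : SolMod m A) {J : Type*} [Fintype J] [DecidableEq J]
    (w : J → Monoid.Coprod A (FreeGroup J)) (hw : IsUnit (((expM w).det : ℤ) : ZMod m)) :
    HasSol w := by
  let e := Fintype.equivFin J
  let w' : Fin (Fintype.card J) → Monoid.Coprod A (FreeGroup (Fin (Fintype.card J))) :=
    fun i => Monoid.Coprod.map (MonoidHom.id A) (FreeGroup.map e) (w (e.symm i))
  have hexp : ∀ (j : Fin (Fintype.card J)) (y : Monoid.Coprod A (FreeGroup J)),
      expo j (Monoid.Coprod.map (MonoidHom.id A) (FreeGroup.map e) y) = expo (e.symm j) y := by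
    intro j y
    have h1 : (expo j).comp (Monoid.Coprod.map (MonoidHom.id A) (FreeGroup.map e))
        = expo (e.symm j) := by
      apply Monoid.Coprod.hom_ext
      · ext a
        simp [expo]
      · apply FreeGroup.ext_hom
        intro k
        simp only [expo, MonoidHom.comp_apply, Monoid.Coprod.map_apply_inr, FreeGroup.map.of,
          Monoid.Coprod.lift_apply_inr, FreeGroup.lift_apply_of]
        congr 1
        by_cases hk : e k = j
        · rw [if_pos hk, if_pos (by rw [← hk, Equiv.symm_apply_apply])]
        · rw [if_neg hk, if_neg (fun h => hk (by rw [h, Equiv.apply_symm_apply]))]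
    exact DFunLike.congr_fun h1 y
  have hM : expM w' = (expM w).submatrix e.symm e.symm := by
    ext i j
    simp only [expM, Matrix.of_apply, Matrix.submatrix_apply, w', hexp]
  obtain ⟨G, hG, φ, x, hφ, hx⟩ := h _ w' (by rwa [hM, Matrix.det_submatrix_equiv_self])
  refine ⟨G, hG, φ, fun j => x (e j), hφ, fun i => ?_⟩
  have h2 := hx (e i)
  have h3 : (Monoid.Coprod.lift φ (FreeGroup.lift x)).comp
      (Monoid.Coprod.map (MonoidHom.id A) (FreeGroup.map e))
      = Monoid.Coprod.lift φ (FreeGroup.lift (fun j => x (e j))) := by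
    apply Monoid.Coprod.hom_ext
    · ext a
      simp
    · apply FreeGroup.ext_hom
      intro k
      simp
  rw [← h3, MonoidHom.comp_apply]
  simpa only [w', Equiv.symm_apply_apply] using h2

/-- products of groups -/
lemma SolMod.pi {m : ℕ} {K : Type} {P : K → Type u} [∀ κ, Group (P κ)]
    (h : ∀ κ, SolMod m (P κ)) : SolMod m (∀ κ, P κ) := by
  intro n w hw
  let pr : ∀ κ, Monoid.Coprod (∀ κ, P κ) (FreeGroup (Fin n)) →*
      Monoid.Coprod (P κ) (FreeGroup (Fin n)) := fun κ =>
    Monoid.Coprod.map (Pi.evalMonoidHom P κ) (MonoidHom.id _)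
  have hexp : ∀ κ (j : Fin n) y, expo j (pr κ y) = expo j y := by
    intro κ j y
    have h1 : (expo j).comp (pr κ) = expo j := by
      apply Monoid.Coprod.hom_ext
      · ext a
        simp [expo, pr]
      · apply FreeGroup.ext_hom
        intro k
        simp [expo, pr]
    exact DFunLike.congr_fun h1 y
  have hM : ∀ κ, expM (fun i => pr κ (w i)) = expM w := by
    intro κ
    ext i j
    simp only [expM, Matrix.of_apply, hexp]
  have hs : ∀ κ, HasSol (fun i => pr κ (w i)) := fun κ => h κ n _ (by rwa [hM])
  choose G hG φ x hφ hx using hs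
  refine ⟨∀ κ, G κ, inferInstance, MonoidHom.pi (fun κ => (φ κ).comp (Pi.evalMonoidHom P κ)),
    fun i κ => x κ i, ?_, fun i => ?_⟩
  · intro a b hab
    funext κ
    exact hφ κ (congrFun hab κ)
  · funext κ
    have h2 : (Pi.evalMonoidHom G κ).comp (Monoid.Coprod.lift
        (MonoidHom.pi (fun κ => (φ κ).comp (Pi.evalMonoidHom P κ)))
        (FreeGroup.lift (fun i κ => x κ i)))
        = (Monoid.Coprod.lift (φ κ) (FreeGroup.lift (x κ))).comp (pr κ) := by
      apply Monoid.Coprod.hom_ext
      · ext a
        simp only [MonoidHom.comp_apply, pr, Monoid.Coprod.map_apply_inl,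
          Monoid.Coprod.lift_apply_inl]
        rfl
      · apply FreeGroup.ext_hom
        intro k
        simp [pr]
    have h3 := DFunLike.congr_fun h2 (w i)
    simp only [MonoidHom.comp_apply, hx] at h3
    exact h3

end

end EqG
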