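import Pool.Agent.EqG.Hol
import Pool.Agent.EqG.Sys

/-!
# Solving the system at the top of a tower
-/

namespace EqG

open Equiv

universe u

section Chains

variable {A : Type*} {ι : Type*} {Ω : Type*} (σ : A ⊕ ι → Perm Ω)

/-- labels on the edges of the unknowns -/
def yθ {M : Type*} [AddCommGroup M] (y : Ω × ι → M) (e : Ω × (A ⊕ ι)) : Multiplicative M :=
  match e.2 with
  | Sum.inl _ => 1
  | Sum.inr j => Multiplicative.ofAdd (y (e.1, j))

lemma pth_yθ {M : Type*} [AddCommGroup M] (y : Ω × ι → M) (w : List ((A ⊕ ι) × Bool)) (v : Ω) :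
    pth σ (yθ y) w v = Multiplicative.ofAdd ((xc σ ℤ w v).sum (fun e n => n • y e)) := by
  have h := map_pth (AddMonoidHom.toMultiplicative
    (Finsupp.liftAddHom (fun e : Ω × ι => zmultiplesHom M (y e)))) σ (xθ (A := A) ℤ) w v
  have h1 : (fun e : Ω × (A ⊕ ι) => (AddMonoidHom.toMultiplicative
      (Finsupp.liftAddHom (fun e : Ω × ι => zmultiplesHom M (y e)))) (xθ ℤ e)) = yθ y := by
    funext e
    obtain ⟨v, s⟩ := e
    cases s with
    | inl a => exact map_one _
    | inr j =>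
      change Multiplicative.ofAdd (Finsupp.liftAddHom (fun e : Ω × ι => zmultiplesHom M (y e))
        (Finsupp.single (v, j) 1)) = _
      rw [Finsupp.liftAddHom_apply_single, zmultiplesHom_apply, one_smul]
      rfl
  rw [h1] at h
  exact h.symm

lemma pth_one_label {Γ : Type*} [Group Γ] (w : List ((A ⊕ ι) × Bool)) (v : Ω) :
    pth σ (fun _ => (1 : Γ)) w v = 1 := by
  induction w with
  | nil => rfl
  | cons l w ih =>
    rw [pth, ih, mul_one]
    obtain ⟨s, b⟩ := l
    cases b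
    · exact inv_one
    · rfl

open Classical in
lemma xc_apply (k : Type*) [Ring k] (w : List ((A ⊕ ι) × Bool)) (v : Ω) (e : Ω × ι) :
    pth σ (yθ (A := A) (fun e' => if e' = e then (1 : k) else 0)) w v
      = Multiplicative.ofAdd (xc σ k w v e) := by
  have h := map_pth (AddMonoidHom.toMultiplicative (Finsupp.applyAddHom (M := k) e)) σ
    (xθ (A := A) k) w v
  have h1 : (fun e' : Ω × (A ⊕ ι) => (AddMonoidHom.toMultiplicative
      (Finsupp.applyAddHom (M := k) e)) (xθ k e')) = yθ (fun e' => if e' = e then (1 : k) else 0) := by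
    funext e'
    obtain ⟨v, s⟩ := e'
    cases s with
    | inl a => exact map_one _
    | inr j =>
      change Multiplicative.ofAdd ((Finsupp.single (v, j) (1 : k)) e) = _
      rw [Finsupp.single_apply]
      rfl
  rw [h1] at h
  exact h.symm

lemma xc_cast (k : Type*) [Ring k] (w : List ((A ⊕ ι) × Bool)) (v : Ω) (e : Ω × ι) :
    xc σ k w v e = ((xc σ ℤ w v e : ℤ) : k) := by
  classical
  have h := (xc_apply σ k w v e).symm.trans (pth_yθ σ _ w v)
  have h1 := congrArg Multiplicative.toAdd h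
  rw [toAdd_ofAdd, toAdd_ofAdd] at h1
  rw [h1, Finsupp.sum]
  have h2 : ∀ e' ∈ (xc σ ℤ w v).support, (xc σ ℤ w v) e' • (if e' = e then (1 : k) else 0)
      = if e' = e then (((xc σ ℤ w v) e' : ℤ) : k) else 0 := by
    intro e' _
    split_ifs
    · rw [zsmul_eq_mul, mul_one]
    · rw [smul_zero]
  rw [Finset.sum_congr rfl h2, Finset.sum_ite_eq']
  split_ifs with h3
  · rfl
  · rw [Finsupp.notMem_support_iff.1 h3, Int.cast_zero]

lemma xc_ne {k : Type*} [Ring k] {w : List ((A ⊕ ι) × Bool)} {v : Ω} {e : Ω × ι}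
    (h : xc σ k w v e ≠ 0) : (e.1, Sum.inr e.2) ∈ vE σ w v := by
  classical
  by_contra hcon
  apply h
  have h1 := xc_apply σ k w v e
  rw [pth_congr σ (θ' := fun _ => 1) w v, pth_one_label] at h1
  · exact (congrArg Multiplicative.toAdd h1).symm
  · rintro ⟨v', s⟩ he
    cases s with
    | inl a => rfl
    | inr j =>
      change Multiplicative.ofAdd (if (v', j) = e then (1 : k) else 0) = 1
      rw [if_neg]
      · rfl
      · rintro rfl
        exact hcon he

end Chains

section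

variable {A : Type u} [Group A] {ι : Type} [DecidableEq ι] (L : ι → List ((A ⊕ ι) × Bool))
  {Ω : Type} (σ : A ⊕ ι → Perm Ω) (v₀ : Ω) (D : List (Cj A ι)) (g : A)

/-- the edges of the unknowns -/
def EX : Set (Ω × ι) := {e | (e.1, Sum.inr e.2) ∈ Es L σ v₀ D g}

omit [DecidableEq ι] in
lemma finite_EX : (EX L σ v₀ D g).Finite := by
  have h : EX L σ v₀ D g = (fun e : Ω × ι => (e.1, (Sum.inr e.2 : A ⊕ ι))) ⁻¹'
      {e | e ∈ Es L σ v₀ D g} := rfl
  rw [h]
  refine Set.Finite.preimage (fun e _ e' _ h1 => ?_) (List.finite_toSet _)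
  simp only [Prod.mk.injEq, Sum.inr.injEq] at h1
  exact Prod.ext h1.1 h1.2

variable {L σ v₀ D g}

omit [DecidableEq ι] in
lemma face_edge {d : Cj A ι} (hd : d ∈ D) {e : Ω × (A ⊕ ι)}
    (he : e ∈ vE σ (rw' L d.2.1) (act σ d.1 v₀)) : e ∈ Es L σ v₀ D g :=
  List.mem_cons_of_mem _ (List.mem_flatMap.2 ⟨d, hd, mem_vE_of_append σ _ _ _ _ he⟩)

omit [DecidableEq ι] in
lemma face_edge' (f : FC σ v₀ D) {e : Ω × (A ⊕ ι)}
    (he : e ∈ vE σ (L f.1.2) f.1.1) : e ∈ Es L σ v₀ D g := by
  obtain ⟨⟨v, i⟩, d, hd, h1, h2⟩ := f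
  simp only at h1 h2 he
  apply face_edge hd
  rw [h1, ← h2]
  exact he

variable (L σ v₀ D g)

/-- the incidence matrix of faces and edges -/
noncomputable def RR : Matrix (FC σ v₀ D) (EX L σ v₀ D g) ℤ :=
  Matrix.of (fun f e => xc σ ℤ (L f.1.2) f.1.1 e.1)

variable {L σ v₀ D g}

omit [DecidableEq ι] in
lemma RR_indep {q : ℕ} [Fact q.Prime] (h : Ind L σ v₀ D (ZMod q)) :
    LinearIndependent (ZMod q) (fun f : FC σ v₀ D =>
      (fun e : EX L σ v₀ D g => ((RR L σ v₀ D g f e : ℤ) : ZMod q))) := by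
  have := (finite_FC σ v₀ D).fintype
  rw [Fintype.linearIndependent_iff]
  intro a ha
  refine Fintype.linearIndependent_iff.1 h a ?_
  ext e
  rw [Finsupp.finsetSum_apply, Finsupp.coe_zero, Pi.zero_apply]
  simp only [Finsupp.smul_apply, smul_eq_mul]
  by_cases he : e ∈ EX L σ v₀ D g
  · have h1 := congrFun ha ⟨e, he⟩
    rw [Finset.sum_apply] at h1
    simp only [Pi.smul_apply, smul_eq_mul, RR, Matrix.of_apply, Pi.zero_apply, ← xc_cast] at h1
    exact h1
  · refine Finset.sum_eq_zero (fun f _ => ?_)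
    by_contra hne
    exact he (face_edge' f (xc_ne σ (right_ne_zero_of_mul hne)))

omit [DecidableEq ι] in
/-- sums over a path as sums over the edges -/
lemma pth_face [Fintype (EX L σ v₀ D g)] {M : Type*} [AddCommGroup M] (y : Ω × ι → M)
    (f : FC σ v₀ D) :
    pth σ (yθ y) (L f.1.2) f.1.1
      = Multiplicative.ofAdd (∑ e : EX L σ v₀ D g, RR L σ v₀ D g f e • y e.1) := by
  rw [pth_yθ, Finsupp.sum]
  congr 1
  have h1 : ∑ e : EX L σ v₀ D g, RR L σ v₀ D g f e • y e.1
      = ∑ e ∈ (EX L σ v₀ D g).toFinset, (xc σ ℤ (L f.1.2) f.1.1) e • y e :=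
    Finset.sum_set_coe (EX L σ v₀ D g) (f := fun e => (xc σ ℤ (L f.1.2) f.1.1) e • y e)
  rw [h1]
  refine Finset.sum_subset (fun e he => ?_) (fun e _ he => ?_)
  · rw [Set.mem_toFinset]
    exact face_edge' f (xc_ne σ (Finsupp.mem_support_iff.1 he))
  · rw [Finsupp.notMem_support_iff.1 he, zero_smul]

omit [DecidableEq ι] [Group A] in
lemma pth_mul_comm {Λ : Type*} [CommGroup Λ] (θ θ' : Ω × (A ⊕ ι) → Λ)
    (w : List ((A ⊕ ι) × Bool)) (v : Ω) :
    pth σ (fun e => θ e * θ' e) w v = pth σ θ w v * pth σ θ' w v := by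
  induction w with
  | nil => exact (one_mul _).symm
  | cons l w ih =>
    rw [pth, pth, pth, ih]
    obtain ⟨s, b⟩ := l
    cases b
    · simp only [lv, cond_false, mul_inv]
      exact mul_mul_mul_comm _ _ _ _
    · simp only [lv, cond_true]
      exact mul_mul_mul_comm _ _ _ _

omit [DecidableEq ι] in
/-- the product along a triangle -/
lemma pth_tri {Γ : Type*} [Group Γ] (hc : Closed L σ v₀ D) (θ : Ω × (A ⊕ ι) → Γ) {d : Cj A ι}
    (hd : d ∈ D) {a b : A} (hr : d.2.1 = Rl.tri a b) :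
    ∃ x : Ω, (x, Sum.inl (a * b)) ∈ Es L σ v₀ D g ∧ (x, Sum.inl b) ∈ Es L σ v₀ D g ∧
      (σ (Sum.inl b) x, Sum.inl a) ∈ Es L σ v₀ D g ∧
      σ (Sum.inl a) (σ (Sum.inl b) x) = σ (Sum.inl (a * b)) x ∧
      pth σ θ (rw' L d.2.1) (act σ d.1 v₀)
        = θ (σ (Sum.inl b) x, Sum.inl a) * θ (x, Sum.inl b) * (θ (x, Sum.inl (a * b)))⁻¹ := by
  set v := act σ d.1 v₀ with hv
  have h1 := hc d hd
  rw [hr] at h1
  refine ⟨(σ (Sum.inl (a * b)))⁻¹ v, ?_, ?_, ?_, ?_, ?_⟩
  · apply face_edge hd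
    rw [hr]
    simp [rw', vE, eg, act, ← hv]
  · apply face_edge hd
    rw [hr]
    simp [rw', vE, eg, act, stp, ← hv]
  · apply face_edge hd
    rw [hr]
    simp [rw', vE, eg, act, stp, ← hv]
  · exact h1.trans ((σ (Sum.inl (a * b))).apply_symm_apply v).symm
  · rw [hr]
    simp only [rw', pth, lv, act, stp, cond_true, cond_false, mul_one, mul_assoc]

open Classical in
omit [DecidableEq ι] in
/-- **Holonomy groups at the top have no homomorphisms to `ℤ/m`.** -/
theorem top_hom {m : ℕ} (hm : m = 0 ∨ m.Prime) (hcl : Closed L σ v₀ D)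
    (hind : ∀ q : ℕ, ∀ [Fact q.Prime], q ∣ m → Ind L σ v₀ D (ZMod q))
    (ht : ∀ c : Ω × (A ⊕ ι) → Multiplicative (ZMod m),
      (∀ d ∈ D, pth σ c (rw' L d.2.1) (act σ d.1 v₀) = 1) →
      ∃ f : Ω → Multiplicative (ZMod m), ∀ e ∈ Es L σ v₀ D g, f (σ e.2 e.1) = c e * f e.1)
    {E : List (Ω × (A ⊕ ι))} (hE : Es L σ v₀ D g = E) (κ : QH σ E)
    (φ : PK σ E κ →* Multiplicative (ZMod m)) : φ = 1 := by
  have := (finite_FC σ v₀ D).fintype
  have := (finite_EX L σ v₀ D g).fintype
  obtain ⟨C, hC⟩ := exists_right_inv hm (RR L σ v₀ D g) (fun q _ hq => RR_indep (hind q hq))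
  let φ' : A → Multiplicative (ZMod m) := fun a => if h : a ∈ PK σ E κ then φ ⟨a, h⟩ else 1
  have hφ' : ∀ a b, a ∈ PK σ E κ → b ∈ PK σ E κ → φ' (a * b) = φ' a * φ' b := by
    intro a b ha hb
    simp only [φ']
    rw [dif_pos ha, dif_pos hb, dif_pos (mul_mem ha hb), ← map_mul]
    rfl
  let cA : Ω × (A ⊕ ι) → Multiplicative (ZMod m) := fun e =>
    match e.2 with
    | Sum.inl b => if (e.1, (Sum.inl b : A ⊕ ι)) ∈ E ∧ cl σ E e.1 = κ then
        φ' ((hh σ E (σ (Sum.inl b) e.1))⁻¹ * b * hh σ E e.1) else 1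
    | Sum.inr _ => 1
  let β : FC σ v₀ D → ZMod m := fun f => Multiplicative.toAdd (pth σ cA (L f.1.2) f.1.1)
  let y : Ω × ι → ZMod m := fun e =>
    if he : e ∈ EX L σ v₀ D g then -∑ f, C ⟨e, he⟩ f • β f else 0
  have hy : ∀ e : EX L σ v₀ D g, y e.1 = -∑ f, C e f • β f := fun e => dif_pos e.2
  have hface : ∀ f : FC σ v₀ D, ∑ e : EX L σ v₀ D g, RR L σ v₀ D g f e • y e.1 = -β f := by
    intro f
    have h1 : ∀ e : EX L σ v₀ D g, RR L σ v₀ D g f e • y e.1
        = -∑ f', ((RR L σ v₀ D g f e * C e f' : ℤ) : ZMod m) * β f' := by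
      intro e
      rw [hy, smul_neg, Finset.smul_sum]
      congr 1
      refine Finset.sum_congr rfl (fun f' _ => ?_)
      rw [smul_smul, zsmul_eq_mul]
    rw [Finset.sum_congr rfl (fun e _ => h1 e), Finset.sum_neg_distrib, Finset.sum_comm]
    congr 1
    have h2 : ∀ f', ∑ e : EX L σ v₀ D g, ((RR L σ v₀ D g f e * C e f' : ℤ) : ZMod m) * β f'
        = (if f = f' then 1 else 0) * β f' := by
      intro f'
      rw [← hC f f', Int.cast_sum, Finset.sum_mul]
    rw [Finset.sum_congr rfl (fun f' _ => h2 f')]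
    simp
  obtain ⟨F, hF⟩ := ht (fun e => cA e * yθ y e) (by
    intro d hd
    rcases hr : d.2.1 with ⟨a, b⟩ | ⟨i⟩
    · obtain ⟨x, h1, h2, h3, h4, h5⟩ := pth_tri (g := g) hcl (fun e => cA e * yθ y e) hd hr
      rw [hE] at h1 h2 h3
      rw [hr] at h5
      rw [h5]
      have e1 : cl σ E (σ (Sum.inl b) x) = cl σ E x := cl_step h2
      have e2 : ∀ (v : Ω) (b : A), cA (v, Sum.inl b) * yθ y (v, Sum.inl b) = cA (v, Sum.inl b) :=
        fun v b => mul_one _
      rw [e2, e2, e2]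
      by_cases hκ : cl σ E x = κ
      · have h6 : cA (σ (Sum.inl b) x, Sum.inl a)
            = φ' ((hh σ E (σ (Sum.inl a) (σ (Sum.inl b) x)))⁻¹ * a * hh σ E (σ (Sum.inl b) x)) :=
          if_pos ⟨h3, e1.trans hκ⟩
        have h7 : cA (x, Sum.inl b) = φ' ((hh σ E (σ (Sum.inl b) x))⁻¹ * b * hh σ E x) :=
          if_pos ⟨h2, hκ⟩
        have h8 : cA (x, Sum.inl (a * b))
            = φ' ((hh σ E (σ (Sum.inl (a * b)) x))⁻¹ * (a * b) * hh σ E x) :=
          if_pos ⟨h1, hκ⟩
        have m1 := edge_mem_PK (σ := σ) h3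
        rw [e1, hκ] at m1
        have m2 := edge_mem_PK (σ := σ) h2
        rw [hκ] at m2
        rw [h6, h7, h8, ← hφ' _ _ m1 m2, ← h4, mul_inv_eq_one]
        congr 1
        group
      · have h6 : cA (σ (Sum.inl b) x, Sum.inl a) = 1 :=
          if_neg (fun h => hκ (e1.symm.trans h.2))
        have h7 : cA (x, Sum.inl b) = 1 := if_neg (fun h => hκ h.2)
        have h8 : cA (x, Sum.inl (a * b)) = 1 := if_neg (fun h => hκ h.2)
        rw [h6, h7, h8, mul_one, inv_one, mul_one]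
    · have hf : ((act σ d.1 v₀, i) : Ω × ι) ∈ FC σ v₀ D := ⟨d, hd, hr, rfl⟩
      have h1 := pth_face (L := L) (g := g) y ⟨_, hf⟩
      have h2 := hface ⟨_, hf⟩
      rw [h2] at h1
      simp only at h1
      change pth σ (fun e => cA e * yθ y e) (L i) (act σ d.1 v₀) = 1
      rw [pth_mul_comm, h1]
      change Multiplicative.ofAdd (β ⟨_, hf⟩ + -β ⟨_, hf⟩) = 1
      rw [add_neg_cancel]
      rfl)
  refine hom_trivial κ φ F (fun v b h hc => ?_)
  have h1 := hF (v, Sum.inl b) (by rw [hE]; exact h)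
  simp only at h1
  rw [h1]
  congr 1
  have h2 : cA (v, Sum.inl b) = φ' ((hh σ E (σ (Sum.inl b) v))⁻¹ * b * hh σ E v) :=
    if_pos ⟨h, hc⟩
  change cA (v, Sum.inl b) * 1 = _
  rw [mul_one, h2]
  have h3 : (hh σ E (σ (Sum.inl b) v))⁻¹ * b * hh σ E v ∈ PK σ E κ := hc ▸ edge_mem_PK h
  exact dif_pos h3

open Classical in
omit [DecidableEq ι] in
/-- **The letter is trivial.** -/
theorem top_value {m : ℕ} (hm : m = 0 ∨ m.Prime) (hcl : Closed L σ v₀ D)
    (hind : ∀ q : ℕ, ∀ [Fact q.Prime], q ∣ m → Ind L σ v₀ D (ZMod q))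
    (ht : ∀ c : Ω × (A ⊕ ι) → Multiplicative (ZMod m),
      (∀ d ∈ D, pth σ c (rw' L d.2.1) (act σ d.1 v₀) = 1) →
      ∃ f : Ω → Multiplicative (ZMod m), ∀ e ∈ Es L σ v₀ D g, f (σ e.2 e.1) = c e * f e.1)
    (hD : FreeGroup.of (Sum.inl g) = cjs L D)
    (hyp : ∀ P : Subgroup A, P.FG → (∀ φ : P →* Multiplicative (ZMod m), φ = 1) → SolMod m P) :
    g = 1 := by
  obtain ⟨E, hE⟩ : ∃ E, Es L σ v₀ D g = E := ⟨_, rfl⟩
  have := (finite_FC σ v₀ D).fintype
  have := (finite_EX L σ v₀ D g).fintype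
  obtain ⟨C, hC⟩ := exists_right_inv hm (RR L σ v₀ D g) (fun q _ hq => RR_indep (hind q hq))
  have hsol : SolMod m (∀ κ : QH σ E, PK σ E κ) :=
    SolMod.pi (fun κ => hyp _ (fg_PK κ) (fun φ => top_hom hm hcl hind ht hE κ φ))
  -- the constants
  let emb : QH σ E → A → (∀ κ : QH σ E, PK σ E κ) := fun κ a =>
    if h : a ∈ PK σ E κ then Pi.mulSingle κ ⟨a, h⟩ else 1
  have hemb : ∀ κ a b, a ∈ PK σ E κ → b ∈ PK σ E κ → emb κ (a * b) = emb κ a * emb κ b := by
    intro κ a b ha hb
    simp only [emb]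
    rw [dif_pos ha, dif_pos hb, dif_pos (mul_mem ha hb), ← Pi.mulSingle_mul]
    rfl
  let J := FC σ v₀ D ⊕ EX L σ v₀ D g
  let θW : Ω × (A ⊕ ι) → Monoid.Coprod (∀ κ : QH σ E, PK σ E κ) (FreeGroup J) := fun e =>
    match e.2 with
    | Sum.inl b => if (e.1, (Sum.inl b : A ⊕ ι)) ∈ E then Monoid.Coprod.inl
        (emb (cl σ E e.1) ((hh σ E (σ (Sum.inl b) e.1))⁻¹ * b * hh σ E e.1)) else 1
    | Sum.inr j => if h : ((e.1, j) : Ω × ι) ∈ EX L σ v₀ D g then
        Monoid.Coprod.inr (FreeGroup.of (Sum.inr ⟨(e.1, j), h⟩)) else 1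
  let w : J → Monoid.Coprod (∀ κ : QH σ E, PK σ E κ) (FreeGroup J) := fun x =>
    match x with
    | Sum.inl f => pth σ θW (L f.1.2) f.1.1
    | Sum.inr e => Monoid.Coprod.inr (FreeGroup.of (Sum.inr e)) *
        (Finset.univ.toList.map (fun f : FC σ v₀ D =>
          Monoid.Coprod.inr (FreeGroup.of (Sum.inl f : J)) ^ C e f)).prod
  have hx1 : ∀ (j x : J), expo (A := ∀ κ : QH σ E, PK σ E κ) j
      (Monoid.Coprod.inr (FreeGroup.of x)) = Multiplicative.ofAdd (if x = j then 1 else 0) := by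
    intro j x
    simp [expo]
  have hx2 : ∀ (j : J) (a : ∀ κ : QH σ E, PK σ E κ), expo j (Monoid.Coprod.inl a) = 1 := by
    intro j a
    simp [expo]
  have hexp : expM w = Matrix.fromBlocks 0 (RR L σ v₀ D g) C 1 := by
    ext a b
    rcases a with f | e
    · rcases b with f' | e'
      · rw [Matrix.fromBlocks_apply₁₁, Matrix.zero_apply]
        change Multiplicative.toAdd (expo (Sum.inl f') (pth σ θW (L f.1.2) f.1.1)) = 0
        rw [map_pth]
        have h1 : (fun e => expo (Sum.inl f' : J) (θW e)) = fun _ => 1 := by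
          funext e
          obtain ⟨v, s⟩ := e
          cases s with
          | inl b =>
            simp only [θW]
            split_ifs
            · exact hx2 _ _
            · exact map_one _
          | inr j =>
            simp only [θW]
            split_ifs
            · rw [hx1, if_neg (by simp)]
              rfl
            · exact map_one _
        rw [h1, pth_one_label]
        rfl
      · rw [Matrix.fromBlocks_apply₁₂]
        change Multiplicative.toAdd (expo (Sum.inr e') (pth σ θW (L f.1.2) f.1.1)) = _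
        rw [map_pth]
        have h1 : (fun e => expo (Sum.inr e' : J) (θW e))
            = yθ (fun e => if e = e'.1 then (1 : ℤ) else 0) := by
          funext e
          obtain ⟨v, s⟩ := e
          cases s with
          | inl b =>
            simp only [θW, yθ]
            split_ifs
            · exact hx2 _ _
            · exact map_one _
          | inr j =>
            simp only [θW, yθ]
            by_cases h2 : ((v, j) : Ω × ι) ∈ EX L σ v₀ D g
            · rw [dif_pos h2, hx1]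
              congr 1
              by_cases h3 : ((v, j) : Ω × ι) = e'.1
              · rw [if_pos h3, if_pos (congrArg Sum.inr (Subtype.ext h3))]
              · rw [if_neg h3, if_neg]
                intro h4
                exact h3 (congrArg Subtype.val (Sum.inr_injective h4))
            · rw [dif_neg h2, map_one, if_neg]
              · rfl
              · intro h3
                exact h2 (h3 ▸ e'.2)
        rw [h1, xc_apply]
        rfl
    · have h3 : ∀ j : J, Multiplicative.toAdd (expo j (w (Sum.inr e)))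
          = (if (Sum.inr e : J) = j then 1 else 0)
            + ∑ f, C e f * (if (Sum.inl f : J) = j then 1 else 0) := by
        intro j
        change Multiplicative.toAdd (expo j (Monoid.Coprod.inr (FreeGroup.of (Sum.inr e)) *
          (Finset.univ.toList.map (fun f : FC σ v₀ D =>
            Monoid.Coprod.inr (FreeGroup.of (Sum.inl f : J)) ^ C e f)).prod)) = _
        rw [map_mul, hx1, map_list_prod, List.map_map, toAdd_mul, toAdd_ofAdd]
        congr 1
        have h4 : (⇑(expo (A := ∀ κ : QH σ E, PK σ E κ) j) ∘ fun f : FC σ v₀ D =>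
            Monoid.Coprod.inr (FreeGroup.of (Sum.inl f : J)) ^ C e f)
            = fun f => Multiplicative.ofAdd (C e f * (if (Sum.inl f : J) = j then 1 else 0)) := by
          funext f
          simp only [Function.comp_apply, map_zpow]
          rw [hx1, ← ofAdd_zsmul, smul_eq_mul]
        rw [h4, Finset.prod_map_toList, toAdd_prod]
        rfl
      rcases b with f' | e'
      · rw [Matrix.fromBlocks_apply₂₁]
        refine (h3 _).trans ?_
        simp
      · rw [Matrix.fromBlocks_apply₂₂, Matrix.one_apply]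
        refine (h3 _).trans ?_
        simp
  have hdet : IsUnit (((expM w).det : ℤ) : ZMod m) := by
    rw [hexp, Matrix.det_fromBlocks_one₂₂, zero_sub, Int.cast_det]
    have h1 : (-(RR L σ v₀ D g * C)).map (Int.cast : ℤ → ZMod m) = -1 := by
      ext f f'
      rw [Matrix.map_apply, Matrix.neg_apply, Matrix.mul_apply, Int.cast_neg, hC,
        Matrix.neg_apply, Matrix.one_apply]
    rw [h1]
    exact (Matrix.isUnit_iff_isUnit_det _).1 isUnit_one.neg
  obtain ⟨G, hG, φ, x, hφ, hx⟩ := hsol.reindex w hdet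
  have hval := (hcl.value hD (θ := fun e => Monoid.Coprod.lift φ (FreeGroup.lift x) (θW e)) (by
    intro d hd
    rcases hr : d.2.1 with ⟨a, b⟩ | ⟨i⟩
    · obtain ⟨x', h1, h2, h3, h4, h5⟩ := pth_tri (g := g) hcl
        (fun e => Monoid.Coprod.lift φ (FreeGroup.lift x) (θW e)) hd hr
      rw [hE] at h1 h2 h3
      rw [hr] at h5
      rw [h5]
      have e1 : cl σ E (σ (Sum.inl b) x') = cl σ E x' := cl_step h2
      have e2 : ∀ (v : Ω) (b : A), (v, Sum.inl b) ∈ E →
          Monoid.Coprod.lift φ (FreeGroup.lift x) (θW (v, Sum.inl b))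
            = φ (emb (cl σ E v) ((hh σ E (σ (Sum.inl b) v))⁻¹ * b * hh σ E v)) := by
        intro v b h
        have h6 : θW (v, Sum.inl b) = Monoid.Coprod.inl
            (emb (cl σ E v) ((hh σ E (σ (Sum.inl b) v))⁻¹ * b * hh σ E v)) := if_pos h
        rw [h6, Monoid.Coprod.lift_apply_inl]
      rw [e2 _ _ h1, e2 _ _ h2, e2 _ _ h3, e1, ← map_mul, ← map_inv, ← map_mul]
      have m1 := edge_mem_PK (σ := σ) h3
      rw [e1] at m1
      have m2 := edge_mem_PK (σ := σ) h2
      rw [← hemb _ _ _ m1 m2, ← h4]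
      have h7 : (hh σ E (σ (Sum.inl a) (σ (Sum.inl b) x')))⁻¹ * a * hh σ E (σ (Sum.inl b) x')
          * ((hh σ E (σ (Sum.inl b) x'))⁻¹ * b * hh σ E x')
          = (hh σ E (σ (Sum.inl a) (σ (Sum.inl b) x')))⁻¹ * (a * b) * hh σ E x' := by group
      rw [h7, mul_inv_cancel, map_one]
    · have hf : ((act σ d.1 v₀, i) : Ω × ι) ∈ FC σ v₀ D := ⟨d, hd, hr, rfl⟩
      have h1 := hx (Sum.inl ⟨_, hf⟩)
      have h2 := map_pth (Monoid.Coprod.lift φ (FreeGroup.lift x)) σ θW (L i) (act σ d.1 v₀)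
      exact h2.symm.trans h1))
  have hmem : (v₀, (Sum.inl g : A ⊕ ι)) ∈ E := by
    rw [← hE]
    exact List.mem_cons_self
  have h6 : θW (v₀, Sum.inl g) = Monoid.Coprod.inl
      (emb (cl σ E v₀) ((hh σ E (σ (Sum.inl g) v₀))⁻¹ * g * hh σ E v₀)) := if_pos hmem
  obtain ⟨h7, h8⟩ := hval
  rw [h6, Monoid.Coprod.lift_apply_inl, map_eq_one_iff φ hφ] at h8
  have h9 := edge_mem_PK (σ := σ) hmem
  simp only [emb] at h8
  rw [dif_pos h9] at h8
  have h10 := (Pi.mulSingle_eq_one_iff.1 h8)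
  have h11 := congrArg Subtype.val h10
  simp only [Subgroup.coe_one] at h11
  rw [h7] at h11
  have h12 : g = hh σ E v₀ * ((hh σ E v₀)⁻¹ * g * hh σ E v₀) * (hh σ E v₀)⁻¹ := by group
  rw [h12, h11]
  group

end

end EqG
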