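import Pool.Agent.EqG.RightInv

/-!
# Holonomy groups at the top of a tower
-/

namespace EqG

open Equiv

section

variable {A : Type*} [Group A] {ι : Type*} {Ω : Type*} (σ : A ⊕ ι → Perm Ω)
  (E : List (Ω × (A ⊕ ι)))

/-- labels of paths of constants -/
inductive Hol : Ω → A → Ω → Prop
  | refl (v : Ω) : Hol v 1 v
  | step {v v' : Ω} {a : A} (b : A) : Hol v a v' → (v', Sum.inl b) ∈ E →
      Hol v (b * a) (σ (Sum.inl b) v')
  | back {v x : Ω} {a : A} (b : A) : Hol v a (σ (Sum.inl b) x) → (x, Sum.inl b) ∈ E →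
      Hol v (b⁻¹ * a) x

variable {σ E}

lemma Hol.trans {v v' v'' : Ω} {a a' : A} (h : Hol σ E v a v') (h' : Hol σ E v' a' v'') :
    Hol σ E v (a' * a) v'' := by
  induction h' with
  | refl => rwa [one_mul]
  | step b _ hb ih => rw [mul_assoc]; exact Hol.step b ih hb
  | back b _ hb ih => rw [mul_assoc]; exact Hol.back b ih hb

lemma Hol.symm {v v' : Ω} {a : A} (h : Hol σ E v a v') : Hol σ E v' a⁻¹ v := by
  induction h with
  | refl => rw [inv_one]; exact Hol.refl _
  | @step v' a b _ hb ih =>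
    have h1 := Hol.back b (Hol.refl (σ := σ) (E := E) (σ (Sum.inl b) v')) hb
    have h2 := h1.trans ih
    rwa [mul_one, ← mul_inv_rev] at h2
  | @back x a b _ hb ih =>
    have h1 := Hol.step b (Hol.refl (σ := σ) (E := E) x) hb
    have h2 := h1.trans ih
    rw [mul_inv_rev, inv_inv]
    rwa [mul_one] at h2

variable (σ E)

/-- the holonomy group -/
def PH (v : Ω) : Subgroup A where
  carrier := {a | Hol σ E v a v}
  mul_mem' ha hb := hb.trans ha
  one_mem' := Hol.refl v
  inv_mem' ha := ha.symm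

/-- connected by constants -/
def holSetoid : Setoid Ω where
  r v v' := ∃ a, Hol σ E v a v'
  iseqv :=
    { refl := fun v => ⟨1, Hol.refl v⟩
      symm := fun ⟨a, h⟩ => ⟨a⁻¹, h.symm⟩
      trans := fun ⟨a, h⟩ ⟨b, h'⟩ => ⟨b * a, h.trans h'⟩ }

/-- the set of components -/
def QH : Type _ := Quotient (holSetoid σ E)

/-- the component of a vertex -/
def cl (v : Ω) : QH σ E := Quotient.mk (holSetoid σ E) v

/-- the base vertex of a component -/
noncomputable def rep (κ : QH σ E) : Ω := Quotient.out κ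

lemma cl_rep (κ : QH σ E) : cl σ E (rep σ E κ) = κ := Quotient.out_eq κ

lemma exists_hh (v : Ω) : ∃ a, Hol σ E (rep σ E (cl σ E v)) a v :=
  Quotient.exact (cl_rep σ E (cl σ E v))

/-- the label of a path from the base vertex -/
noncomputable def hh (v : Ω) : A := (exists_hh σ E v).choose

lemma hh_spec (v : Ω) : Hol σ E (rep σ E (cl σ E v)) (hh σ E v) v := (exists_hh σ E v).choose_spec

/-- the holonomy group of a component -/
noncomputable def PK (κ : QH σ E) : Subgroup A := PH σ E (rep σ E κ)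

variable {σ E}

lemma cl_eq {v v' : Ω} {a : A} (h : Hol σ E v a v') : cl σ E v' = cl σ E v :=
  (Quotient.sound (s := holSetoid σ E) (a := v) (b := v') ⟨a, h⟩).symm

lemma cl_step {v : Ω} {b : A} (h : (v, Sum.inl b) ∈ E) : cl σ E (σ (Sum.inl b) v) = cl σ E v :=
  cl_eq (Hol.step b (Hol.refl v) h)

lemma mem_PK {v v' : Ω} {a : A} (h : Hol σ E v a v') :
    (hh σ E v')⁻¹ * a * hh σ E v ∈ PK σ E (cl σ E v) := by
  have h1 := hh_spec σ E v
  have h2 := hh_spec σ E v'
  rw [cl_eq h] at h2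
  have h3 := (h1.trans h).trans h2.symm
  rw [← mul_assoc] at h3
  exact h3

lemma edge_mem_PK {v : Ω} {b : A} (h : (v, Sum.inl b) ∈ E) :
    (hh σ E (σ (Sum.inl b) v))⁻¹ * b * hh σ E v ∈ PK σ E (cl σ E v) := by
  have h1 := mem_PK (Hol.step b (Hol.refl (σ := σ) (E := E) v) h)
  rwa [mul_one] at h1

lemma hh_rep_mem (κ : QH σ E) : hh σ E (rep σ E κ) ∈ PK σ E κ := by
  have h1 := hh_spec σ E (rep σ E κ)
  rw [cl_rep] at h1
  exact h1

open Classical in
/-- the holonomy groups are finitely generated -/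
lemma fg_PK (κ : QH σ E) : (PK σ E κ).FG := by
  set T : Set A := insert (hh σ E (rep σ E κ))
    ((fun e : Ω × (A ⊕ ι) => match e.2 with
      | Sum.inl b => if cl σ E e.1 = κ then (hh σ E (σ (Sum.inl b) e.1))⁻¹ * b * hh σ E e.1 else 1
      | Sum.inr _ => 1) '' {e | e ∈ E}) with hT
  have hfin : T.Finite := ((List.finite_toSet E).image _).insert _
  have hle : Subgroup.closure T ≤ PK σ E κ := by
    rw [Subgroup.closure_le]
    rintro x (rfl | ⟨⟨v, s⟩, he, rfl⟩)
    · exact hh_rep_mem κ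
    · cases s with
      | inl b =>
        simp only
        split_ifs with hc
        · subst hc
          exact edge_mem_PK he
        · exact one_mem _
      | inr j => exact one_mem _
  have hedge : ∀ {v : Ω} {b : A}, (v, Sum.inl b) ∈ E → cl σ E v = κ →
      (hh σ E (σ (Sum.inl b) v))⁻¹ * b * hh σ E v ∈ Subgroup.closure T := by
    intro v b h hc
    apply Subgroup.subset_closure
    right
    refine ⟨(v, Sum.inl b), h, ?_⟩
    simp only [hc, if_true]
  have key : ∀ {w : Ω} {v : Ω} {a : A}, Hol σ E w a v → w = rep σ E κ →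
      (hh σ E v)⁻¹ * a * hh σ E w ∈ Subgroup.closure T := by
    intro w v a h hw
    induction h with
    | refl => rw [mul_one, inv_mul_cancel]; exact one_mem _
    | @step v' a b h hb ih =>
      have hc : cl σ E v' = κ := by rw [cl_eq h, hw, cl_rep]
      have h1 := mul_mem (hedge hb hc) ih
      have h2 : (hh σ E (σ (Sum.inl b) v'))⁻¹ * b * hh σ E v' * ((hh σ E v')⁻¹ * a * hh σ E w)
          = (hh σ E (σ (Sum.inl b) v'))⁻¹ * (b * a) * hh σ E w := by group
      rwa [h2] at h1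
    | @back x a b h hb ih =>
      have hc : cl σ E x = κ := by rw [← cl_step hb, cl_eq h, hw, cl_rep]
      have h1 := mul_mem (inv_mem (hedge hb hc)) ih
      have h2 : ((hh σ E (σ (Sum.inl b) x))⁻¹ * b * hh σ E x)⁻¹
          * ((hh σ E (σ (Sum.inl b) x))⁻¹ * a * hh σ E w)
          = (hh σ E x)⁻¹ * (b⁻¹ * a) * hh σ E w := by group
      rwa [h2] at h1
  have hge : PK σ E κ ≤ Subgroup.closure T := by
    intro a ha
    have h1 := key (a := a) ha rfl
    have h2 : hh σ E (rep σ E κ) ∈ Subgroup.closure T := Subgroup.subset_closure (Or.inl rfl)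
    have h3 := mul_mem (mul_mem h2 h1) (inv_mem h2)
    have h4 : hh σ E (rep σ E κ) * ((hh σ E (rep σ E κ))⁻¹ * a * hh σ E (rep σ E κ))
        * (hh σ E (rep σ E κ))⁻¹ = a := by group
    rwa [h4] at h3
  rw [le_antisymm hge hle]
  exact ⟨hfin.toFinset, by rw [hfin.coe_toFinset]⟩

/-- coboundaries have trivial holonomy -/
lemma hom_trivial {Λ : Type*} [CommGroup Λ] (κ : QH σ E) (φ : PK σ E κ →* Λ) (F : Ω → Λ)
    (hF : ∀ (v : Ω) (b : A) (h : (v, Sum.inl b) ∈ E) (hc : cl σ E v = κ),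
      F (σ (Sum.inl b) v)
        = φ ⟨(hh σ E (σ (Sum.inl b) v))⁻¹ * b * hh σ E v, hc ▸ edge_mem_PK h⟩ * F v) :
    φ = 1 := by
  have hmem : ∀ {v : Ω} {a : A}, Hol σ E (rep σ E κ) a v →
      (hh σ E v)⁻¹ * a * hh σ E (rep σ E κ) ∈ PK σ E κ := by
    intro v a h
    have h1 := mem_PK h
    rwa [cl_rep] at h1
  have key : ∀ {w : Ω} {v : Ω} {a : A} (h : Hol σ E w a v) (hw : w = rep σ E κ),
      F v = φ ⟨(hh σ E v)⁻¹ * a * hh σ E (rep σ E κ), hmem (hw ▸ h)⟩ * F w := by
    intro w v a h hw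
    induction h with
    | refl =>
      have h1 : (⟨(hh σ E w)⁻¹ * 1 * hh σ E (rep σ E κ), hmem (hw ▸ Hol.refl w)⟩ : PK σ E κ)
          = 1 := by
        apply Subtype.ext
        simp [hw]
      rw [h1, map_one, one_mul]
    | @step v' a b h hb ih =>
      have hc : cl σ E v' = κ := by rw [cl_eq h, hw, cl_rep]
      rw [hF v' b hb hc, ih, ← mul_assoc, ← map_mul]
      congr 2
      apply Subtype.ext
      simp only [Subgroup.coe_mul]
      group
    | @back x a b h hb ih =>
      have hc : cl σ E x = κ := by rw [← cl_step hb, cl_eq h, hw, cl_rep]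
      have h1 := hF x b hb hc
      rw [ih] at h1
      have h2 : F x = (φ ⟨(hh σ E (σ (Sum.inl b) x))⁻¹ * b * hh σ E x, hc ▸ edge_mem_PK hb⟩)⁻¹ *
          (φ ⟨(hh σ E (σ (Sum.inl b) x))⁻¹ * a * hh σ E (rep σ E κ), hmem (hw ▸ h)⟩ * F w) := by
        rw [h1, inv_mul_cancel_left]
      rw [h2, ← mul_assoc, ← map_inv, ← map_mul]
      congr 2
      apply Subtype.ext
      simp only [Subgroup.coe_mul, Subgroup.coe_inv]
      group
  refine MonoidHom.ext (fun a => ?_)
  obtain ⟨a, ha⟩ := a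
  have hm : hh σ E (rep σ E κ) * a * (hh σ E (rep σ E κ))⁻¹ ∈ PK σ E κ :=
    mul_mem (mul_mem (hh_rep_mem κ) ha) (inv_mem (hh_rep_mem κ))
  have h1 := key (a := hh σ E (rep σ E κ) * a * (hh σ E (rep σ E κ))⁻¹) hm rfl
  have h2 := (mul_eq_right.1 h1.symm)
  rw [MonoidHom.one_apply]
  rw [← h2]
  congr 1
  apply Subtype.ext
  simp only
  group

end

end EqG
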