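import Pool.Agent.EqG.Stage

/-!
# Independence of the relators and its behaviour in covers
-/

namespace EqG

open Equiv

section Alg

variable (k Λ : Type*) [Field k] [CommGroup Λ]

/-- the augmentation -/
noncomputable def aug : MonoidAlgebra k Λ →ₐ[k] k := MonoidAlgebra.lift k k Λ 1

/-- elements with nonzero augmentation are regular -/
def AugReg : Prop := ∀ r s : MonoidAlgebra k Λ, aug k Λ r ≠ 0 → r * s = 0 → s = 0

variable {k Λ}

lemma aug_of (x : Λ) : aug k Λ (MonoidAlgebra.of k Λ x) = 1 := by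
  rw [aug, MonoidAlgebra.lift_of]; rfl

/-- lifting linear independence along the augmentation -/
theorem indep_lift {F E : Type*} [Finite F] (h : AugReg k Λ) (ρ : F → (E →₀ MonoidAlgebra k Λ))
    (hi : LinearIndependent k (fun f => (ρ f).mapRange (aug k Λ) (map_zero _))) :
    LinearIndependent (MonoidAlgebra k Λ) ρ := by
  classical
  have := Fintype.ofFinite F
  set v : F → (E →₀ k) := fun f => (ρ f).mapRange (aug k Λ) (map_zero _) with hv
  obtain ⟨ψ, hψ⟩ := LinearMap.exists_leftInverse_of_injective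
    (Fintype.linearCombination k v) (LinearMap.ker_eq_bot.2
      (linearIndependent_iff_injective_fintypeLinearCombination.1 hi))
  have hψ' : ∀ f, ψ (v f) = Pi.single f 1 := by
    intro f
    have h1 := LinearMap.congr_fun hψ (Pi.single f 1)
    rw [LinearMap.comp_apply, Fintype.linearCombination_apply_single, one_smul] at h1
    exact h1
  let Ψ : (E →₀ MonoidAlgebra k Λ) →ₗ[MonoidAlgebra k Λ] (F → MonoidAlgebra k Λ) :=
    Finsupp.linearCombination (MonoidAlgebra k Λ)
      (fun e => fun f' => algebraMap k (MonoidAlgebra k Λ) (ψ (Finsupp.single e 1) f'))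
  have hΨ : ∀ (x : E →₀ MonoidAlgebra k Λ) (f' : F),
      aug k Λ (Ψ x f') = ψ (x.mapRange (aug k Λ) (map_zero _)) f' := by
    intro x f'
    induction x using Finsupp.induction_linear with
    | zero => simp
    | add x y hx hy =>
      rw [map_add, Pi.add_apply, map_add, hx, hy, Finsupp.mapRange_add (fun a b => map_add _ a b),
        map_add, Pi.add_apply]
    | single e r =>
      rw [Finsupp.mapRange_single, Finsupp.linearCombination_single, Pi.smul_apply, smul_eq_mul,
        map_mul, AlgHom.commutes, Algebra.algebraMap_self, RingHom.id_apply]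
      have h2 : (Finsupp.single e (aug k Λ r) : E →₀ k) = aug k Λ r • Finsupp.single e 1 := by
        rw [Finsupp.smul_single, smul_eq_mul, mul_one]
      rw [h2, map_smul, Pi.smul_apply, smul_eq_mul]
  let N : Matrix F F (MonoidAlgebra k Λ) := Matrix.of (fun f f' => Ψ (ρ f) f')
  have hN : aug k Λ N.det = 1 := by
    have h1 := RingHom.map_det (aug k Λ).toRingHom N
    have h2 : (aug k Λ).toRingHom.mapMatrix N = 1 := by
      ext f f'
      rw [RingHom.mapMatrix_apply, Matrix.map_apply]
      change aug k Λ (Ψ (ρ f) f') = _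
      rw [hΨ]
      change ψ (v f) f' = _
      rw [hψ', Matrix.one_apply, Pi.single_apply]
      simp only [eq_comm]
    rw [h2, Matrix.det_one] at h1
    exact h1
  rw [Fintype.linearIndependent_iff]
  intro g hg
  have h1 : Matrix.vecMul g N = 0 := by
    funext f'
    have h2 := congrFun (congrArg Ψ hg) f'
    rw [map_sum, map_zero, Finset.sum_apply] at h2
    simp only [map_smul, Pi.smul_apply, smul_eq_mul, Pi.zero_apply] at h2
    exact h2
  have h2 : N.det • g = 0 := by
    have h3 : Matrix.vecMul (Matrix.vecMul g N) N.adjugate = 0 := by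
      rw [h1, Matrix.zero_vecMul]
    rw [Matrix.vecMul_vecMul, Matrix.mul_adjugate, Matrix.vecMul_smul, Matrix.vecMul_one] at h3
    exact h3
  intro f
  exact h _ _ (by rw [hN]; exact one_ne_zero) (congrFun h2 f)

end Alg

section

variable {S Ω : Type*} {Γ : Type*} [Group Γ]

lemma pth_sk_fst {Γ' : Type*} [Group Γ'] (σ : S → Perm Ω) (θ : Ω × S → Γ) (ϑ : Ω × S → Γ')
    (w : List (S × Bool)) (x : Ω × Γ) :
    pth (sk σ θ) (fun e => ϑ (e.1.1, e.2)) w x = pth σ ϑ w x.1 := by
  induction w with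
  | nil => rfl
  | cons l w ih =>
    rw [pth, pth, ih, act_sk]
    congr 1

lemma pth_sk_shift {Γ' : Type*} [Group Γ'] (σ : S → Perm Ω) (θ : Ω × S → Γ)
    (ϑ : (Ω × Γ) × S → Γ') (w : List (S × Bool)) (v : Ω) (γ μ : Γ) :
    pth (sk σ θ) ϑ w (v, γ * μ)
      = pth (sk σ θ) (fun e => ϑ ((e.1.1, e.1.2 * μ), e.2)) w (v, γ) := by
  induction w with
  | nil => rfl
  | cons l w ih =>
    rw [pth, pth, ih, act_sk, act_sk]
    congr 1
    obtain ⟨s, b⟩ := l
    cases b <;> simp only [lv, cond_false, cond_true, sk_inv_apply, mul_assoc]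

/-- the value of a homomorphism as a product along a path on one vertex -/
lemma pth_one (ψ : FreeGroup S →* Γ) (w : List (S × Bool)) :
    pth (fun _ => (1 : Perm Unit)) (fun e => ψ (FreeGroup.of e.2)) w () = ψ (FreeGroup.mk w) := by
  induction w with
  | nil => rw [pth, ← FreeGroup.one_eq_mk, map_one]
  | cons l w ih =>
    have h : FreeGroup.mk (l :: w) = FreeGroup.mk [l] * FreeGroup.mk w := by
      rw [FreeGroup.mul_mk]; rfl
    rw [h, map_mul, pth, ih]
    congr 1
    obtain ⟨s, b⟩ := l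
    cases b
    · have h1 : (FreeGroup.mk [(s, false)] : FreeGroup S) = (FreeGroup.of s)⁻¹ := by
        rw [FreeGroup.of, FreeGroup.inv_mk]; rfl
      rw [h1, map_inv]
      rfl
    · rfl

end

section

variable {A : Type*} [Group A] {ι : Type*} (L : ι → List ((A ⊕ ι) × Bool)) {Ω : Type*}
  (σ : A ⊕ ι → Perm Ω) (v₀ : Ω) (D : List (Cj A ι))

/-- the faces of the derivation coming from the equations -/
def FC : Set (Ω × ι) := {f | ∃ d ∈ D, d.2.1 = Rl.eq f.2 ∧ f.1 = act σ d.1 v₀}

omit [Group A] in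
lemma finite_FC : (FC σ v₀ D).Finite := by
  let G : Cj A ι → Option (Ω × ι) := fun d =>
    match d.2.1 with
    | Rl.tri _ _ => none
    | Rl.eq i => some (act σ d.1 v₀, i)
  have h : FC σ v₀ D ⊆ some ⁻¹' (G '' {d | d ∈ D}) := by
    rintro ⟨v, i⟩ ⟨d, hd, h1, h2⟩
    refine ⟨d, hd, ?_⟩
    simp only [G]
    simp only at h1 h2
    rw [h1, h2]
  exact Set.Finite.subset (Set.Finite.preimage (Option.some_injective _).injOn
    ((List.finite_toSet D).image _)) h

variable (k : Type*) [Ring k]

/-- the labels for the chain of edges -/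
noncomputable def xθ (e : Ω × (A ⊕ ι)) : Multiplicative ((Ω × ι) →₀ k) :=
  match e.2 with
  | Sum.inl _ => 1
  | Sum.inr j => Multiplicative.ofAdd (Finsupp.single (e.1, j) 1)

/-- the chain of a path -/
noncomputable def xc (w : List ((A ⊕ ι) × Bool)) (v : Ω) : (Ω × ι) →₀ k :=
  Multiplicative.toAdd (pth σ (xθ k) w v)

end

section

variable {A : Type*} [Group A] {ι : Type*} (L : ι → List ((A ⊕ ι) × Bool)) {Ω : Type*}
  (σ : A ⊕ ι → Perm Ω) (v₀ : Ω) (D : List (Cj A ι)) (k : Type*) [Field k]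

/-- independence of the faces -/
def Ind : Prop := LinearIndependent k (fun f : FC σ v₀ D => xc σ k (L f.1.2) f.1.1)

variable {Λ : Type*} [CommGroup Λ]

variable (Ω ι Λ) in
/-- the comparison of chains in the cover with chains over the group algebra -/
noncomputable def PsiC : (((Ω × Λ) × ι) →₀ k) →ₗ[k] ((Ω × ι) →₀ MonoidAlgebra k Λ) :=
  Finsupp.linearCombination k (fun e : (Ω × Λ) × ι =>
    (Finsupp.single (e.1.1, e.2) (MonoidAlgebra.of k Λ e.1.2)))

/-- labels over the group algebra -/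
noncomputable def tθ (e : (Ω × Λ) × (A ⊕ ι)) :
    Multiplicative ((Ω × ι) →₀ MonoidAlgebra k Λ) :=
  match e.2 with
  | Sum.inl _ => 1
  | Sum.inr j => Multiplicative.ofAdd (Finsupp.single (e.1.1, j) (MonoidAlgebra.of k Λ e.1.2))

/-- the twisted chain -/
noncomputable def tc (θ : Ω × (A ⊕ ι) → Λ) (w : List ((A ⊕ ι) × Bool)) (x : Ω × Λ) :
    (Ω × ι) →₀ MonoidAlgebra k Λ :=
  Multiplicative.toAdd (pth (sk σ θ) (tθ k) w x)

omit [Group A] in
lemma PsiC_xc (θ : Ω × (A ⊕ ι) → Λ) (w : List ((A ⊕ ι) × Bool)) (x : Ω × Λ) :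
    PsiC ι Ω k Λ (xc (sk σ θ) k w x) = tc σ k θ w x := by
  have h := map_pth (AddMonoidHom.toMultiplicative (PsiC ι Ω k Λ).toAddMonoidHom) (sk σ θ)
    (xθ k) w x
  have h1 : (fun e => (AddMonoidHom.toMultiplicative (PsiC ι Ω k Λ).toAddMonoidHom) (xθ k e))
      = tθ (A := A) (ι := ι) (Ω := Ω) (Λ := Λ) k := by
    funext e
    obtain ⟨e, s⟩ := e
    cases s with
    | inl a => exact map_one _
    | inr j =>
      change Multiplicative.ofAdd (PsiC ι Ω k Λ (Finsupp.single (e, j) 1)) = _
      rw [PsiC, Finsupp.linearCombination_single, one_smul]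
      rfl
  rw [h1] at h
  exact h

omit [Group A] in
lemma tc_shift (θ : Ω × (A ⊕ ι) → Λ) (w : List ((A ⊕ ι) × Bool)) (v : Ω) (μ : Λ) :
    tc σ k θ w (v, μ) = MonoidAlgebra.of k Λ μ • tc σ k θ w (v, 1) := by
  have h := pth_sk_shift σ θ (tθ (A := A) (ι := ι) k) w v 1 μ
  rw [one_mul] at h
  rw [tc, h]
  have h2 := map_pth (AddMonoidHom.toMultiplicative
    (DistribSMul.toAddMonoidHom ((Ω × ι) →₀ MonoidAlgebra k Λ) (MonoidAlgebra.of k Λ μ)))
    (sk σ θ) (tθ (A := A) (ι := ι) k) w (v, 1)
  have h1 : (fun e => (AddMonoidHom.toMultiplicative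
      (DistribSMul.toAddMonoidHom ((Ω × ι) →₀ MonoidAlgebra k Λ) (MonoidAlgebra.of k Λ μ)))
      (tθ (A := A) k e)) = (fun e : (Ω × Λ) × (A ⊕ ι) => tθ k ((e.1.1, e.1.2 * μ), e.2)) := by
    funext e
    obtain ⟨e, s⟩ := e
    cases s with
    | inl a => exact map_one _
    | inr j =>
      change Multiplicative.ofAdd (MonoidAlgebra.of k Λ μ •
        (Finsupp.single (e.1, j) (MonoidAlgebra.of k Λ e.2) : (Ω × ι) →₀ MonoidAlgebra k Λ)) = _
      rw [Finsupp.smul_single, smul_eq_mul, ← map_mul, mul_comm μ]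
      rfl
  rw [h1] at h2
  exact (congrArg Multiplicative.toAdd h2).symm

omit [Group A] in
lemma aug_tc (θ : Ω × (A ⊕ ι) → Λ) (w : List ((A ⊕ ι) × Bool)) (x : Ω × Λ) :
    (tc σ k θ w x).mapRange (aug k Λ) (map_zero _) = xc σ k w x.1 := by
  have h := map_pth (AddMonoidHom.toMultiplicative
    (Finsupp.mapRange.addMonoidHom (ι := Ω × ι) (aug k Λ : MonoidAlgebra k Λ →+ k))) (sk σ θ)
    (tθ (A := A) (ι := ι) k) w x
  have h1 : (fun e => (AddMonoidHom.toMultiplicative
      (Finsupp.mapRange.addMonoidHom (ι := Ω × ι) (aug k Λ : MonoidAlgebra k Λ →+ k)))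
      (tθ (A := A) (ι := ι) k e)) = (fun e : (Ω × Λ) × (A ⊕ ι) => xθ k (e.1.1, e.2)) := by
    funext e
    obtain ⟨e, s⟩ := e
    cases s with
    | inl a => exact map_one _
    | inr j =>
      change Multiplicative.ofAdd (Finsupp.mapRange.addMonoidHom (ι := Ω × ι)
        (aug k Λ : MonoidAlgebra k Λ →+ k)
        (Finsupp.single (e.1, j) (MonoidAlgebra.of k Λ e.2))) = _
      rw [Finsupp.mapRange.addMonoidHom_apply, Finsupp.mapRange_single]
      change Multiplicative.ofAdd (Finsupp.single (e.1, j) (aug k Λ (MonoidAlgebra.of k Λ e.2)))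
        = _
      rw [aug_of]
      rfl
  rw [h1, pth_sk_fst] at h
  exact congrArg Multiplicative.toAdd h

/-- the group elements are linearly independent -/
lemma indep_of : LinearIndependent k (fun x : Λ => MonoidAlgebra.of k Λ x) :=
  (MonoidAlgebra.basis Λ k).linearIndependent

omit [Group A] in
/-- **Independence in covers.** -/
theorem Ind.sk (h : AugReg k Λ) (hi : Ind L σ v₀ D k) (θ : Ω × (A ⊕ ι) → Λ) :
    Ind L (EqG.sk σ θ) (v₀, (1 : Λ)) D k := by
  have hfin : Finite (FC σ v₀ D) := (finite_FC σ v₀ D).to_subtype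
  have h1 : LinearIndependent (MonoidAlgebra k Λ)
      (fun f : FC σ v₀ D => tc σ k θ (L f.1.2) (f.1.1, 1)) := by
    apply indep_lift h
    simp only [aug_tc]
    exact hi
  have h2 := linearIndependent_smul (indep_of (Λ := Λ) k) h1
  have hmem : ∀ f : FC (EqG.sk σ θ) (v₀, (1 : Λ)) D, (f.1.1.1, f.1.2) ∈ FC σ v₀ D := by
    rintro ⟨⟨⟨v, μ⟩, i⟩, d, hd, h3, h4⟩
    refine ⟨d, hd, h3, ?_⟩
    rw [act_sk] at h4
    exact congrArg Prod.fst h4
  have h3 := h2.comp (fun f : FC (EqG.sk σ θ) (v₀, (1 : Λ)) D =>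
    (f.1.1.2, (⟨(f.1.1.1, f.1.2), hmem f⟩ : FC σ v₀ D))) (by
    rintro ⟨⟨⟨v, μ⟩, i⟩, hf⟩ ⟨⟨⟨v', μ'⟩, i'⟩, hf'⟩ h4
    simp only [Prod.mk.injEq, Subtype.mk.injEq] at h4
    obtain ⟨h5, h6, h7⟩ := h4
    subst h5 h6 h7
    rfl)
  refine LinearIndependent.of_comp (PsiC ι Ω k Λ) ?_
  convert h3 using 1
  funext f
  simp only [Function.comp_apply]
  rw [PsiC_xc, ← tc_shift]

end

section Instances

/-- the group algebra of the infinite cyclic group -/
lemma augReg_int (k : Type*) [Field k] : AugReg k (Multiplicative ℤ) := by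
  intro r s hr h
  rcases mul_eq_zero.1 h with h1 | h1
  · rw [h1, map_zero] at hr
    exact absurd rfl hr
  · exact h1

/-- the group algebra of a group of prime order in the same characteristic -/
lemma augReg_zmod (p : ℕ) [Fact p.Prime] : AugReg (ZMod p) (Multiplicative (ZMod p)) := by
  intro r s hr h
  have hp : ∀ r : MonoidAlgebra (ZMod p) (Multiplicative (ZMod p)),
      r ^ p = algebraMap (ZMod p) _ (aug (ZMod p) (Multiplicative (ZMod p)) r) := by
    intro r
    have : CharP (MonoidAlgebra (ZMod p) (Multiplicative (ZMod p))) p :=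
      charP_of_injective_algebraMap (algebraMap (ZMod p)
        (MonoidAlgebra (ZMod p) (Multiplicative (ZMod p)))).injective p
    induction r using MonoidAlgebra.induction_on with
    | of x =>
      rw [← map_pow, aug_of, map_one]
      have : x ^ p = 1 := by
        apply Multiplicative.toAdd.injective
        rw [toAdd_pow, toAdd_one, nsmul_eq_mul, CharP.cast_eq_zero, zero_mul]
      rw [this, map_one]
    | add x y hx hy => rw [add_pow_char, hx, hy, map_add, map_add]
    | smul c x hx =>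
      rw [Algebra.smul_def, mul_pow, hx, map_mul, AlgHom.commutes, map_mul, ← map_pow,
        ZMod.pow_card, Algebra.algebraMap_self, RingHom.id_apply]
  have h0 : ∀ n : ℕ, n ≠ 0 → r ^ n * s = 0 := by
    intro n hn
    obtain ⟨m, rfl⟩ := Nat.exists_eq_succ_of_ne_zero hn
    rw [pow_succ, mul_assoc, h, mul_zero]
  have h1 := h0 p (Fact.out (p := p.Prime)).ne_zero
  rw [hp, ← Algebra.smul_def] at h1
  have h2 := congrArg (fun t => (aug (ZMod p) (Multiplicative (ZMod p)) r)⁻¹ • t) h1
  simp only [smul_smul, smul_zero] at h2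
  rwa [inv_mul_cancel₀ hr, one_smul] at h2

end Instances

section Init

variable {A : Type*} [Group A] {ι : Type*} [Fintype ι] [DecidableEq ι]
  (L : ι → List ((A ⊕ ι) × Bool)) (D : List (Cj A ι)) (k : Type*) [Field k]

/-- the exponent sum of an unknown, on the free group -/
noncomputable def es (j : ι) : FreeGroup (A ⊕ ι) →* Multiplicative ℤ :=
  FreeGroup.lift (fun s => match s with
    | Sum.inl _ => 1
    | Sum.inr j' => Multiplicative.ofAdd (if j' = j then 1 else 0))

omit [Group A] [Fintype ι] in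
lemma xc_unit (w : List ((A ⊕ ι) × Bool)) (j : ι) :
    xc (fun _ : A ⊕ ι => (1 : Perm Unit)) k w () ((), j)
      = ((Multiplicative.toAdd (es j (FreeGroup.mk w)) : ℤ) : k) := by
  have h := map_pth (AddMonoidHom.toMultiplicative
    (Finsupp.applyAddHom (M := k) ((((), j) : Unit × ι)))) (fun _ : A ⊕ ι => (1 : Perm Unit))
    (xθ k) w ()
  have h1 := map_pth (AddMonoidHom.toMultiplicative (Int.castAddHom k))
    (fun _ : A ⊕ ι => (1 : Perm Unit)) (fun e : Unit × (A ⊕ ι) => es j (FreeGroup.of e.2)) w ()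
  rw [pth_one] at h1
  have h2 : (fun e : Unit × (A ⊕ ι) => (AddMonoidHom.toMultiplicative
      (Finsupp.applyAddHom (M := k) ((((), j) : Unit × ι)))) (xθ k e))
      = (fun e : Unit × (A ⊕ ι) => (AddMonoidHom.toMultiplicative (Int.castAddHom k))
        (es j (FreeGroup.of e.2))) := by
    funext e
    obtain ⟨u, s⟩ := e
    cases s with
    | inl a => simp [xθ, es]
    | inr j' =>
      simp only [xθ, es, FreeGroup.lift_apply_of]
      change Multiplicative.ofAdd ((Finsupp.single (u, j') (1 : k)) ((), j)) =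
        Multiplicative.ofAdd (((if j' = j then 1 else 0 : ℤ) : k))
      congr 1
      rw [Finsupp.single_apply]
      by_cases hj : j' = j
      · simp [hj]
      · simp [hj]
  rw [h2, ← h1] at h
  exact congrArg Multiplicative.toAdd h

omit [Group A] in
/-- the initial stage is independent -/
theorem ind_init (hdet : (Matrix.of (fun i j : ι =>
    ((Multiplicative.toAdd (es j (FreeGroup.mk (L i))) : ℤ) : k))).det ≠ 0) :
    Ind L (fun _ : A ⊕ ι => (1 : Perm Unit)) () D k := by
  have h1 : LinearIndependent k (fun i : ι => xc (fun _ : A ⊕ ι => (1 : Perm Unit)) k (L i) ()) := by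
    refine LinearIndependent.of_comp
      (LinearMap.pi (fun j : ι => Finsupp.lapply (R := k) (((), j) : Unit × ι))) ?_
    have h2 := Matrix.linearIndependent_rows_of_det_ne_zero hdet
    have h3 : ((LinearMap.pi (fun j : ι => Finsupp.lapply (R := k) (((), j) : Unit × ι))) ∘
        fun i : ι => xc (fun _ : A ⊕ ι => (1 : Perm Unit)) k (L i) ()) =
        (Matrix.of (fun i j : ι =>
          ((Multiplicative.toAdd (es j (FreeGroup.mk (L i))) : ℤ) : k))).row := by
      funext i j
      simp only [Function.comp_apply, LinearMap.pi_apply, Finsupp.lapply_apply, xc_unit]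
      rfl
    rw [h3]
    exact h2
  exact h1.comp (fun f : FC (fun _ : A ⊕ ι => (1 : Perm Unit)) () D => f.1.2)
    (fun f f' h => Subtype.ext (Prod.ext rfl h))

omit [Fintype ι] [DecidableEq ι] in
lemma closed_init : Closed L (fun _ : A ⊕ ι => (1 : Perm Unit)) () D := fun _ _ => rfl

end Init

end EqG
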