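import Pool.Agent.EqG.Final

/-!
# The tower theorem for systems of equations
-/

namespace EqG

open Equiv

universe u

section

variable {A : Type u} [Group A] {n : ℕ}

/-- the map from the free group on constants and unknowns -/
noncomputable def Phi (A : Type u) [Group A] (n : ℕ) :
    FreeGroup (A ⊕ Fin n) →* Monoid.Coprod A (FreeGroup (Fin n)) :=
  FreeGroup.lift (Sum.elim Monoid.Coprod.inl (fun i => Monoid.Coprod.inr (FreeGroup.of i)))

lemma Phi_surjective : Function.Surjective (Phi A n) := by
  intro x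
  induction x using Monoid.Coprod.induction_on with
  | inl a => exact ⟨FreeGroup.of (Sum.inl a), by rw [Phi, FreeGroup.lift_apply_of]; rfl⟩
  | inr y =>
    refine ⟨FreeGroup.map Sum.inr y, ?_⟩
    have h : (Phi A n).comp (FreeGroup.map Sum.inr) = Monoid.Coprod.inr := by
      apply FreeGroup.ext_hom
      intro i
      rw [MonoidHom.comp_apply, FreeGroup.map.of, Phi, FreeGroup.lift_apply_of]
      rfl
    exact DFunLike.congr_fun h y
  | mul x y hx hy =>
    obtain ⟨x', rfl⟩ := hx
    obtain ⟨y', rfl⟩ := hy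
    exact ⟨x' * y', map_mul _ _ _⟩

lemma es_eq (j : Fin n) (x : FreeGroup (A ⊕ Fin n)) : es j x = expo j (Phi A n x) := by
  have h : es j = (expo j).comp (Phi A n) := by
    apply FreeGroup.ext_hom
    intro s
    rw [MonoidHom.comp_apply, es, FreeGroup.lift_apply_of, Phi, FreeGroup.lift_apply_of]
    cases s with
    | inl a => simp [expo]
    | inr i => simp [expo]
  exact DFunLike.congr_fun h x

/-- **The tower theorem.** -/
theorem solMod_of_fg {m : ℕ} (hm : m = 0 ∨ m.Prime)
    (hyp : ∀ P : Subgroup A, P.FG → (∀ φ : P →* Multiplicative (ZMod m), φ = 1) → SolMod m P) :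
    SolMod m A := by
  intro n w hw
  have hL : ∀ i, ∃ l : List ((A ⊕ Fin n) × Bool), Phi A n (FreeGroup.mk l) = w i := by
    intro i
    obtain ⟨x, hx⟩ := Phi_surjective (w i)
    obtain ⟨l, hl⟩ := Quot.exists_rep (x : FreeGroup (A ⊕ Fin n))
    exact ⟨l, by rw [← hx, ← hl]; rfl⟩
  choose L hL using hL
  let N := Subgroup.normalClosure (rels L)
  let q : FreeGroup (A ⊕ Fin n) →* FreeGroup (A ⊕ Fin n) ⧸ N := QuotientGroup.mk' N
  have hrel : ∀ r : Rl A (Fin n), q (FreeGroup.mk (rw' L r)) = 1 := fun r =>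
    (QuotientGroup.eq_one_iff _).2 (Subgroup.subset_normalClosure ⟨r, rfl⟩)
  let φ : A →* FreeGroup (A ⊕ Fin n) ⧸ N := MonoidHom.mk' (fun a => q (FreeGroup.of (Sum.inl a)))
    (by
      intro a b
      have h1 := hrel (Rl.tri a b)
      have h2 : (FreeGroup.mk (rw' L (Rl.tri a b)) : FreeGroup (A ⊕ Fin n))
          = FreeGroup.of (Sum.inl a) * FreeGroup.of (Sum.inl b)
            * (FreeGroup.of (Sum.inl (a * b)))⁻¹ := by
        rw [FreeGroup.of, FreeGroup.of, FreeGroup.of, FreeGroup.inv_mk, FreeGroup.mul_mk,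
          FreeGroup.mul_mk]
        rfl
      rw [h2, map_mul, map_mul, map_inv, mul_inv_eq_one] at h1
      exact h1.symm)
  let x : Fin n → FreeGroup (A ⊕ Fin n) ⧸ N := fun i => q (FreeGroup.of (Sum.inr i))
  have hcomp : (Monoid.Coprod.lift φ (FreeGroup.lift x)).comp (Phi A n) = q := by
    apply FreeGroup.ext_hom
    intro s
    rw [MonoidHom.comp_apply, Phi, FreeGroup.lift_apply_of]
    cases s with
    | inl a => rw [Sum.elim_inl, Monoid.Coprod.lift_apply_inl]; rfl
    | inr i => rw [Sum.elim_inr, Monoid.Coprod.lift_apply_inr, FreeGroup.lift_apply_of]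
  refine ⟨_, inferInstance, φ, x, ?_, fun i => ?_⟩
  · rw [injective_iff_map_eq_one]
    intro g hg
    have h1 : (FreeGroup.of (Sum.inl g) : FreeGroup (A ⊕ Fin n)) ∈ N :=
      (QuotientGroup.eq_one_iff _).1 hg
    obtain ⟨D, hD⟩ := exists_cjs L h1
    have hind : ∀ q : ℕ, ∀ [Fact q.Prime], q ∣ m →
        Ind L (fun _ : A ⊕ Fin n => (1 : Perm Unit)) () D (ZMod q) := by
      intro q _ hq
      apply ind_init
      have h2 : (Matrix.of (fun i j : Fin n =>
          ((Multiplicative.toAdd (es j (FreeGroup.mk (L i))) : ℤ) : ZMod q)))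
          = (expM w).map (Int.cast : ℤ → ZMod q) := by
        ext i j
        rw [Matrix.of_apply, Matrix.map_apply, es_eq, hL]
        rfl
      rw [h2, ← Int.cast_det]
      have h3 := hw.map (ZMod.castHom hq (ZMod q))
      rw [map_intCast] at h3
      exact h3.ne_zero
    let s : Stg L D m :=
      { Ω := Unit
        σ := fun _ => 1
        v₀ := ()
        closed := closed_init L D
        ind := hind }
    obtain ⟨s', hs'⟩ := exists_top hm hD s
    exact top_value hm s'.closed s'.ind hs' hD hyp
  · rw [← hL i, ← MonoidHom.comp_apply, hcomp]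
    exact hrel (Rl.eq i)

/-- subgroups -/
lemma SolMod.of_injective {m : ℕ} {B : Type u} [Group B] (h : SolMod m B) (f : A →* B)
    (hf : Function.Injective f) : SolMod m A := by
  intro n w hw
  let pr : Monoid.Coprod A (FreeGroup (Fin n)) →* Monoid.Coprod B (FreeGroup (Fin n)) :=
    Monoid.Coprod.map f (MonoidHom.id _)
  have hexp : ∀ (j : Fin n) y, expo j (pr y) = expo j y := by
    intro j y
    have h1 : (expo j).comp pr = expo j := by
      apply Monoid.Coprod.hom_ext
      · ext a
        simp [expo, pr]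
      · apply FreeGroup.ext_hom
        intro k
        simp [expo, pr]
    exact DFunLike.congr_fun h1 y
  have hM : expM (fun i => pr (w i)) = expM w := by
    ext i j
    simp only [expM, Matrix.of_apply, hexp]
  obtain ⟨G, hG, φ, x, hφ, hx⟩ := h n (fun i => pr (w i)) (by rwa [hM])
  refine ⟨G, hG, φ.comp f, x, hφ.comp hf, fun i => ?_⟩
  have h2 : Monoid.Coprod.lift (φ.comp f) (FreeGroup.lift x)
      = (Monoid.Coprod.lift φ (FreeGroup.lift x)).comp pr := by
    apply Monoid.Coprod.hom_ext
    · ext a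
      simp [pr]
    · apply FreeGroup.ext_hom
      intro k
      simp [pr]
  rw [h2]
  exact hx i

end

end EqG
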