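import Mathlib

/-!
# Paths in Schreier graphs, skew products
-/

namespace EqG

open Equiv

section

variable {S Ω : Type*}

/-- a signed letter as a permutation -/
def stp (σ : S → Perm Ω) (l : S × Bool) : Perm Ω := cond l.2 (σ l.1) (σ l.1)⁻¹

/-- the action of a word, read from the right -/
def act (σ : S → Perm Ω) : List (S × Bool) → Ω → Ω
  | [], v => v
  | l :: w, v => stp σ l (act σ w v)

lemma lift_mk (σ : S → Perm Ω) (w : List (S × Bool)) (v : Ω) :
    FreeGroup.lift σ (FreeGroup.mk w) v = act σ w v := by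
  induction w with
  | nil => simp [act, ← FreeGroup.one_eq_mk]
  | cons l w ih =>
    have h : FreeGroup.mk (l :: w) = FreeGroup.mk [l] * FreeGroup.mk w := by
      rw [FreeGroup.mul_mk]; rfl
    rw [h, map_mul, Perm.mul_apply, ih, act, FreeGroup.lift_mk]
    simp [stp]

lemma act_append (σ : S → Perm Ω) (w w' : List (S × Bool)) (v : Ω) :
    act σ (w ++ w') v = act σ w (act σ w' v) := by
  induction w with
  | nil => rfl
  | cons l w ih => rw [List.cons_append, act, act, ih]

/-- the edge of a letter read at a vertex -/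
def eg (σ : S → Perm Ω) (l : S × Bool) (v : Ω) : Ω × S :=
  cond l.2 (v, l.1) ((σ l.1)⁻¹ v, l.1)

/-- the visited vertices -/
def vV (σ : S → Perm Ω) : List (S × Bool) → Ω → List Ω
  | [], v => [v]
  | l :: w, v => stp σ l (act σ w v) :: vV σ w v

/-- the visited edges -/
def vE (σ : S → Perm Ω) : List (S × Bool) → Ω → List (Ω × S)
  | [], _ => []
  | l :: w, v => eg σ l (act σ w v) :: vE σ w v

lemma length_vV (σ : S → Perm Ω) (w : List (S × Bool)) (v : Ω) :
    (vV σ w v).length = w.length + 1 := by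
  induction w with
  | nil => rfl
  | cons l w ih => rw [vV, List.length_cons, ih, List.length_cons]

lemma act_mem_vV (σ : S → Perm Ω) (w : List (S × Bool)) (v : Ω) : act σ w v ∈ vV σ w v := by
  cases w with
  | nil => exact List.mem_singleton.2 rfl
  | cons l w => exact List.mem_cons_self

lemma mem_vV_of_append (σ : S → Perm Ω) (w w' : List (S × Bool)) (v x : Ω)
    (h : x ∈ vV σ w (act σ w' v)) : x ∈ vV σ (w ++ w') v := by
  induction w with
  | nil =>
    rw [vV, List.mem_singleton] at h
    subst h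
    exact act_mem_vV σ w' v
  | cons l w ih =>
    rw [vV, List.mem_cons] at h
    rw [List.cons_append, vV, List.mem_cons]
    rcases h with h | h
    · left; rw [h, act_append]
    · right; exact ih h

lemma mem_vE_of_append (σ : S → Perm Ω) (w w' : List (S × Bool)) (v : Ω) (e : Ω × S)
    (h : e ∈ vE σ w (act σ w' v)) : e ∈ vE σ (w ++ w') v := by
  induction w with
  | nil => simp [vE] at h
  | cons l w ih =>
    rw [vE, List.mem_cons] at h
    rw [List.cons_append, vE, List.mem_cons]
    rcases h with h | h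
    · left; rw [h, act_append]
    · right; exact ih h

variable {Γ : Type*} [Group Γ]

/-- the value of a letter -/
def lv (σ : S → Perm Ω) (θ : Ω × S → Γ) (l : S × Bool) (v : Ω) : Γ :=
  cond l.2 (θ (v, l.1)) (θ ((σ l.1)⁻¹ v, l.1))⁻¹

/-- the product along a path -/
def pth (σ : S → Perm Ω) (θ : Ω × S → Γ) : List (S × Bool) → Ω → Γ
  | [], _ => 1
  | l :: w, v => lv σ θ l (act σ w v) * pth σ θ w v

/-- the skew product -/
def sk (σ : S → Perm Ω) (θ : Ω × S → Γ) (s : S) : Perm (Ω × Γ) where
  toFun x := (σ s x.1, θ (x.1, s) * x.2)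
  invFun x := ((σ s)⁻¹ x.1, (θ ((σ s)⁻¹ x.1, s))⁻¹ * x.2)
  left_inv x := by simp
  right_inv x := by simp

lemma sk_apply (σ : S → Perm Ω) (θ : Ω × S → Γ) (s : S) (x : Ω × Γ) :
    sk σ θ s x = (σ s x.1, θ (x.1, s) * x.2) := rfl

lemma sk_inv_apply (σ : S → Perm Ω) (θ : Ω × S → Γ) (s : S) (x : Ω × Γ) :
    (sk σ θ s)⁻¹ x = ((σ s)⁻¹ x.1, (θ ((σ s)⁻¹ x.1, s))⁻¹ * x.2) := rfl

lemma stp_sk (σ : S → Perm Ω) (θ : Ω × S → Γ) (l : S × Bool) (x : Ω × Γ) :
    stp (sk σ θ) l x = (stp σ l x.1, lv σ θ l x.1 * x.2) := by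
  obtain ⟨s, b⟩ := l
  cases b <;> rfl

lemma act_sk (σ : S → Perm Ω) (θ : Ω × S → Γ) (w : List (S × Bool)) (x : Ω × Γ) :
    act (sk σ θ) w x = (act σ w x.1, pth σ θ w x.1 * x.2) := by
  induction w with
  | nil => simp [act, pth]
  | cons l w ih => rw [act, ih, stp_sk, act, pth, mul_assoc]

lemma map_pth {Γ' : Type*} [Group Γ'] (f : Γ →* Γ') (σ : S → Perm Ω) (θ : Ω × S → Γ)
    (w : List (S × Bool)) (v : Ω) : f (pth σ θ w v) = pth σ (fun e => f (θ e)) w v := by
  induction w with
  | nil => exact map_one f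
  | cons l w ih =>
    rw [pth, map_mul, ih, pth]
    congr 1
    obtain ⟨s, b⟩ := l
    cases b
    · exact map_inv f _
    · rfl

lemma pth_congr (σ : S → Perm Ω) {θ θ' : Ω × S → Γ} (w : List (S × Bool)) (v : Ω)
    (h : ∀ e ∈ vE σ w v, θ e = θ' e) : pth σ θ w v = pth σ θ' w v := by
  induction w with
  | nil => rfl
  | cons l w ih =>
    rw [pth, pth, ih (fun e he => h e (List.mem_cons_of_mem _ he))]
    congr 1
    have h1 := h (eg σ l (act σ w v)) List.mem_cons_self
    obtain ⟨s, b⟩ := l
    cases b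
    · exact congrArg (·⁻¹) h1
    · exact h1

lemma map_fst_vV (σ : S → Perm Ω) (θ : Ω × S → Γ) (w : List (S × Bool)) (x : Ω × Γ) :
    (vV (sk σ θ) w x).map Prod.fst = vV σ w x.1 := by
  induction w with
  | nil => rfl
  | cons l w ih => rw [vV, List.map_cons, ih, vV, act_sk, stp_sk]

/-- lifting of visited edges -/
lemma exists_lift_edge (σ : S → Perm Ω) (θ : Ω × S → Γ) (w : List (S × Bool)) (x : Ω × Γ)
    {e : Ω × S} (he : e ∈ vE σ w x.1) : ∃ μ : Γ, (e.1, μ) ∈ vV (sk σ θ) w x ∧
      (σ e.2 e.1, θ e * μ) ∈ vV (sk σ θ) w x ∧ ((e.1, μ), e.2) ∈ vE (sk σ θ) w x := by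
  induction w with
  | nil => simp [vE] at he
  | cons l w ih =>
    rw [vE, List.mem_cons] at he
    rcases he with rfl | he
    · obtain ⟨s, b⟩ := l
      have h1 := act_mem_vV (sk σ θ) w x
      cases b
      · refine ⟨(θ ((σ s)⁻¹ (act σ w x.1), s))⁻¹ * (act (sk σ θ) w x).2, ?_, ?_, ?_⟩
        · rw [vV, List.mem_cons]
          left
          rw [stp_sk, act_sk]
          rfl
        · rw [vV, List.mem_cons]
          right
          convert h1 using 1
          rw [act_sk]
          simp [eg]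
        · rw [vE, List.mem_cons]
          left
          rw [act_sk]
          rfl
      · refine ⟨(act (sk σ θ) w x).2, ?_, ?_, ?_⟩
        · rw [vV, List.mem_cons]
          right
          convert h1 using 1
          rw [act_sk]
          rfl
        · rw [vV, List.mem_cons]
          left
          rw [stp_sk, act_sk]
          rfl
        · rw [vE, List.mem_cons]
          left
          rw [act_sk]
          rfl
    · obtain ⟨μ, h1, h2, h3⟩ := ih he
      exact ⟨μ, List.mem_cons_of_mem _ h1, List.mem_cons_of_mem _ h2, List.mem_cons_of_mem _ h3⟩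

end

end EqG
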