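import Pool.Agent.EqG.Cor

/-!
# The reduction theorem for the three hypotheses
-/

namespace EqG

universe u

/-- every square system over `A` whose exponent-sum determinant satisfies `D` is solvable in an
overgroup of `A` -/
def Solv (D : ℤ → Prop) (A : Type u) [Group A] : Prop :=
  ∀ (n : ℕ) (w : Fin n → Monoid.Coprod A (FreeGroup (Fin n))), D (expM w).det → HasSol w

/-- every element `a ≠ 1` of `P` survives in a homomorphism from `P` to a group all of whose
systems with determinant in `D` are solvable -/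
def ResSolv (D : ℤ → Prop) (P : Type u) [Group P] : Prop :=
  ∀ a : P, a ≠ 1 → ∃ (Q : Type u) (_ : Group Q) (f : P →* Q), f a ≠ 1 ∧ Solv D Q

section

variable {A : Type u} [Group A]

/-- change of the group of constants -/
noncomputable def chg {B : Type u} [Group B] (f : A →* B) (n : ℕ) :
    Monoid.Coprod A (FreeGroup (Fin n)) →* Monoid.Coprod B (FreeGroup (Fin n)) :=
  Monoid.Coprod.map f (MonoidHom.id _)

lemma expM_chg {B : Type u} [Group B] (f : A →* B) {n : ℕ}
    (w : Fin n → Monoid.Coprod A (FreeGroup (Fin n))) :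
    expM (fun i => chg f n (w i)) = expM w := by
  have hexp : ∀ (j : Fin n) y, expo j (chg f n y) = expo j y := by
    intro j y
    have h1 : (expo j).comp (chg f n) = expo j := by
      apply Monoid.Coprod.hom_ext
      · ext a
        simp [expo, chg]
      · apply FreeGroup.ext_hom
        intro k
        simp [expo, chg]
    exact DFunLike.congr_fun h1 y
  ext i j
  simp only [expM, Matrix.of_apply, hexp]

lemma lift_chg {B G : Type u} [Group B] [Group G] (f : A →* B) {n : ℕ} (φ : B →* G)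
    (x : Fin n → G) (y : Monoid.Coprod A (FreeGroup (Fin n))) :
    Monoid.Coprod.lift (φ.comp f) (FreeGroup.lift x) y
      = Monoid.Coprod.lift φ (FreeGroup.lift x) (chg f n y) := by
  have h2 : Monoid.Coprod.lift (φ.comp f) (FreeGroup.lift x)
      = (Monoid.Coprod.lift φ (FreeGroup.lift x)).comp (chg f n) := by
    apply Monoid.Coprod.hom_ext
    · ext a
      simp [chg]
    · apply FreeGroup.ext_hom
      intro k
      simp [chg]
  rw [h2]
  rfl

/-- products of groups: solvability can be tested residually -/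
lemma ResSolv.solv {D : ℤ → Prop} (h : ResSolv D A) : Solv D A := by
  intro n w hw
  choose Q hQ f hfa hS using h
  have hs : ∀ c : {a : A // a ≠ 1}, HasSol (fun i => chg (f c.1 c.2) n (w i)) := fun c =>
    hS c.1 c.2 n _ (by rwa [expM_chg])
  choose G hG φ x hφ hx using hs
  refine ⟨∀ c : {a : A // a ≠ 1}, G c, inferInstance,
    MonoidHom.pi (fun c => (φ c).comp (f c.1 c.2)), fun i c => x c i, ?_, fun i => ?_⟩
  · rw [injective_iff_map_eq_one]
    intro a ha
    by_contra hne
    have h1 : φ ⟨a, hne⟩ (f a hne a) = 1 := congrFun ha (⟨a, hne⟩ : {a : A // a ≠ 1})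
    exact hfa a hne ((injective_iff_map_eq_one _).1 (hφ ⟨a, hne⟩) _ h1)
  · funext c
    have h2 : (Pi.evalMonoidHom G c).comp (Monoid.Coprod.lift
        (MonoidHom.pi (fun c => (φ c).comp (f c.1 c.2)))
        (FreeGroup.lift (fun i c => x c i)))
        = Monoid.Coprod.lift ((φ c).comp (f c.1 c.2)) (FreeGroup.lift (x c)) := by
      apply Monoid.Coprod.hom_ext
      · ext a
        simp only [MonoidHom.comp_apply, Monoid.Coprod.lift_apply_inl]
        rfl
      · apply FreeGroup.ext_hom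
        intro k
        simp
    have h3 := DFunLike.congr_fun h2 (w i)
    rw [lift_chg, hx] at h3
    exact h3

lemma Solv.res {D : ℤ → Prop} (h : Solv D A) (P : Subgroup A) : ResSolv D P := fun a ha =>
  ⟨A, inferInstance, P.subtype, fun h1 => ha (Subtype.ext h1), h⟩

lemma Solv.mono {D D' : ℤ → Prop} (h : Solv D A) (hD : ∀ d, D' d → D d) : Solv D' A :=
  fun n w hw => h n w (hD _ hw)

lemma solv_one_iff : Solv (fun d => d = 1 ∨ d = -1) A ↔ SolMod 0 A := by
  have h : ∀ d : ℤ, IsUnit ((d : ℤ) : ZMod 0) ↔ (d = 1 ∨ d = -1) := fun d => by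
    rw [show ((d : ℤ) : ZMod 0) = d from Int.cast_id]
    exact Int.isUnit_iff
  constructor
  · exact fun hS n w hw => hS n w ((h _).1 hw)
  · exact fun hS n w hw => hS n w ((h _).2 hw)

lemma solv_prime_iff {p : ℕ} (hp : p.Prime) : Solv (fun d => ¬ (p : ℤ) ∣ d) A ↔ SolMod p A := by
  have h : ∀ d : ℤ, IsUnit ((d : ℤ) : ZMod p) ↔ ¬ (p : ℤ) ∣ d := fun d => by
    have := Fact.mk hp
    rw [isUnit_iff_ne_zero, Ne, ZMod.intCast_zmod_eq_zero_iff_dvd]
  constructor
  · exact fun hS n w hw => hS n w ((h _).1 hw)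
  · exact fun hS n w hw => hS n w ((h _).2 hw)

lemma comm_or (P : Subgroup A) {D : ℤ → Prop} (hD : ∀ d, D d → d ≠ 0)
    (h : (∃ x y : P, x * y ≠ y * x) → ResSolv D P) : Solv D P := by
  by_cases hc : ∃ x y : P, x * y ≠ y * x
  · exact (h hc).solv
  · push Not at hc
    exact Solv.mono (D := fun d => d ≠ 0) (solNZ_comm hc) hD

end

/-- **The reduction theorem.** -/
theorem reduction (A : Type u) [Group A] :
    (Solv (fun d => d ≠ 0) A ↔ ∀ P : Subgroup A, P.FG → (∀ φ : P →* Multiplicative ℤ, φ = 1) →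
      (∃ x y : P, x * y ≠ y * x) → ResSolv (fun d => d ≠ 0) P) ∧
    (∀ p : ℕ, p.Prime → (Solv (fun d => ¬ (p : ℤ) ∣ d) A ↔ ∀ P : Subgroup A, P.FG →
      (∀ φ : P →* Multiplicative (ZMod p), φ = 1) →
      (∃ x y : P, x * y ≠ y * x) → ResSolv (fun d => ¬ (p : ℤ) ∣ d) P)) ∧
    (Solv (fun d => d = 1 ∨ d = -1) A ↔ ∀ P : Subgroup A, P.FG →
      (∀ φ : P →* Multiplicative ℤ, φ = 1) →
      (∃ x y : P, x * y ≠ y * x) → ResSolv (fun d => d = 1 ∨ d = -1) P) := by
  refine ⟨⟨fun h P _ _ _ => h.res P, fun h => ?_⟩, fun p hp => ⟨fun h P _ _ _ => h.res P,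
    fun h => ?_⟩, ⟨fun h P _ _ _ => h.res P, fun h => ?_⟩⟩
  · exact solNZ_of_fg (fun P hP hφ => comm_or P (fun _ => id) (h P hP hφ))
  · rw [solv_prime_iff hp]
    refine solMod_of_fg (Or.inr hp) (fun P hP hφ => ?_)
    rw [← solv_prime_iff hp]
    exact comm_or P (fun d hd h0 => hd (h0 ▸ dvd_zero _)) (h P hP hφ)
  · rw [solv_one_iff]
    refine solMod_of_fg (Or.inl rfl) (fun P hP hφ => ?_)
    rw [← solv_one_iff]
    exact comm_or P (fun d hd h0 => by rcases hd with h1 | h1 <;> omega) (h P hP hφ)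

end EqG
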