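import Pool.Agent.EqG.Tower

/-!
# Right inverses of the incidence matrix
-/

namespace EqG

open Equiv

section Int

variable {F E : Type*} [Finite F] [Finite E]

omit [Finite F] in
/-- splitting of maps of free abelian groups that are injective modulo all primes -/
theorem split_int (φ : (F → ℤ) →ₗ[ℤ] (E → ℤ))
    (h : ∀ q : ℕ, q.Prime → ∀ a, (∀ e, (q : ℤ) ∣ φ a e) → ∀ f, (q : ℤ) ∣ a f) :
    ∃ ψ : (E → ℤ) →ₗ[ℤ] (F → ℤ), ψ ∘ₗ φ = LinearMap.id := by
  have hdiv : ∀ (q : ℤ) (a : F → ℤ), (∀ f, q ∣ a f) → ∃ b : F → ℤ, a = q • b := by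
    intro q a ha
    choose b hb using ha
    exact ⟨b, by funext f; rw [Pi.smul_apply, smul_eq_mul, hb]⟩
  have hinj : Function.Injective φ := by
    rw [injective_iff_map_eq_zero]
    intro a ha
    have h1 : ∀ n : ℕ, ∀ a, φ a = 0 → ∀ f, (2 : ℤ) ^ n ∣ a f := by
      intro n
      induction n with
      | zero => intro a _ f; simp
      | succ n ih =>
        intro a ha f
        obtain ⟨b, rfl⟩ := hdiv 2 a (h 2 Nat.prime_two a (fun e => by rw [ha]; simp))
        have h2 : φ b = 0 := by
          rw [map_smul] at ha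
          exact (smul_eq_zero.1 ha).resolve_left two_ne_zero
        rw [Pi.smul_apply, smul_eq_mul, pow_succ, mul_comm]
        exact mul_dvd_mul_left 2 (ih b h2 f)
    funext f
    refine Int.eq_zero_of_abs_lt_dvd (h1 (a f).natAbs a ha f) ?_
    rw [Int.abs_eq_natAbs]
    exact_mod_cast Nat.lt_two_pow_self
  have hsat : ∀ (n : ℕ) (x : E → ℤ), n ≠ 0 → (n : ℤ) • x ∈ LinearMap.range φ →
      x ∈ LinearMap.range φ := by
    intro n
    induction n using Nat.strong_induction_on with
    | _ n ih =>
      intro x hn hx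
      by_cases h1 : n = 1
      · rw [h1, Nat.cast_one, one_smul] at hx
        exact hx
      obtain ⟨q, hq, n', rfl⟩ := Nat.exists_prime_and_dvd h1
      have hn' : n' ≠ 0 := by rintro rfl; simp at hn
      refine ih n' ?_ x hn' ?_
      · exact lt_mul_of_one_lt_left (Nat.pos_of_ne_zero hn') hq.one_lt
      · obtain ⟨a, ha⟩ := hx
        have h2 : φ a = (q : ℤ) • ((n' : ℤ) • x) := by
          rw [ha, smul_smul, Nat.cast_mul]
        obtain ⟨b, rfl⟩ := hdiv q a (h q hq a (fun e => by
          rw [h2, Pi.smul_apply, smul_eq_mul]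
          exact dvd_mul_right _ _))
        rw [map_smul] at h2
        have hq0 : (q : ℤ) ≠ 0 := by exact_mod_cast hq.ne_zero
        exact ⟨b, smul_right_injective _ hq0 h2⟩
  have htf : Module.IsTorsionFree ℤ ((E → ℤ) ⧸ LinearMap.range φ) := by
    constructor
    intro r hr
    have hr0 : r ≠ 0 := hr.ne_zero
    rw [isSMulRegular_iff_right_eq_zero_of_smul]
    intro y hy
    obtain ⟨x, rfl⟩ := Submodule.mkQ_surjective _ y
    rw [← map_smul] at hy
    have h1 : r • x ∈ LinearMap.range φ := (Submodule.Quotient.mk_eq_zero _).1 hy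
    have h2 : ((r.natAbs : ℕ) : ℤ) • x ∈ LinearMap.range φ := by
      rcases Int.natAbs_eq r with h3 | h3
      · rwa [← h3]
      · have h4 : ((r.natAbs : ℕ) : ℤ) = -r := by omega
        rw [h4, neg_smul]
        exact neg_mem h1
    exact (Submodule.Quotient.mk_eq_zero _).2 (hsat _ x (Int.natAbs_ne_zero.2 hr0) h2)
  obtain ⟨s, hs⟩ := Module.projective_lifting_property (LinearMap.range φ).mkQ
    (LinearMap.id : ((E → ℤ) ⧸ LinearMap.range φ) →ₗ[ℤ] _) (Submodule.mkQ_surjective _)
  let π : (E → ℤ) →ₗ[ℤ] (E → ℤ) := LinearMap.id - s ∘ₗ (LinearMap.range φ).mkQ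
  have hπ : ∀ x, π x = x - s ((LinearMap.range φ).mkQ x) := fun x => rfl
  have hmem : ∀ x, π x ∈ LinearMap.range φ := by
    intro x
    rw [← Submodule.ker_mkQ (LinearMap.range φ), LinearMap.mem_ker, hπ, map_sub]
    have := LinearMap.congr_fun hs ((LinearMap.range φ).mkQ x)
    rw [LinearMap.comp_apply, LinearMap.id_apply] at this
    rw [this, sub_self]
  refine ⟨(LinearEquiv.ofInjective φ hinj).symm.toLinearMap ∘ₗ
    (LinearMap.codRestrict (LinearMap.range φ) π hmem), ?_⟩
  refine LinearMap.ext (fun a => ?_)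
  rw [LinearMap.comp_apply, LinearMap.comp_apply, LinearMap.id_apply]
  have h1 : LinearMap.codRestrict (LinearMap.range φ) π hmem (φ a)
      = LinearEquiv.ofInjective φ hinj a := by
    apply Subtype.ext
    rw [LinearMap.codRestrict_apply, LinearEquiv.ofInjective_apply, hπ]
    have : (LinearMap.range φ).mkQ (φ a) = 0 := by
      rw [Submodule.mkQ_apply, Submodule.Quotient.mk_eq_zero]
      exact ⟨a, rfl⟩
    rw [this, map_zero, sub_zero]
  rw [h1]
  exact LinearEquiv.symm_apply_apply _ _

end Int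

/-- right inverses modulo `m` -/
theorem exists_right_inv {F E : Type*} [Finite F] [Fintype E] [DecidableEq F] {m : ℕ}
    (hm : m = 0 ∨ m.Prime) (R : Matrix F E ℤ)
    (h : ∀ q : ℕ, ∀ [Fact q.Prime], q ∣ m →
      LinearIndependent (ZMod q) (fun f : F => (fun e : E => (R f e : ZMod q)))) :
    ∃ C : Matrix E F ℤ, ∀ f f', ((∑ e, R f e * C e f' : ℤ) : ZMod m) = if f = f' then 1 else 0 := by
  classical
  have := Fintype.ofFinite F
  rcases hm with rfl | hm
  · let φ : (F → ℤ) →ₗ[ℤ] (E → ℤ) := Fintype.linearCombination ℤ (fun f : F => R f)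
    have hφ : ∀ a e, φ a e = ∑ f, a f * R f e := by
      intro a e
      simp only [φ, Fintype.linearCombination_apply, Finset.sum_apply, Pi.smul_apply, smul_eq_mul]
    obtain ⟨ψ, hψ⟩ := split_int φ (fun q hq a ha f => by
      have : Fact q.Prime := ⟨hq⟩
      have h1 := (Fintype.linearIndependent_iff.1 (h q (dvd_zero q))) (fun f => (a f : ZMod q)) (by
        funext e
        have h2 := (ZMod.intCast_zmod_eq_zero_iff_dvd _ q).2 (ha e)
        rw [hφ] at h2
        push_cast at h2
        rw [Finset.sum_apply]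
        simpa only [Pi.smul_apply, smul_eq_mul, Pi.zero_apply] using h2) f
      exact (ZMod.intCast_zmod_eq_zero_iff_dvd _ q).1 h1)
    refine ⟨Matrix.of (fun e f' => ψ (Pi.single e 1) f'), fun f f' => ?_⟩
    have h1 := congrFun (LinearMap.congr_fun hψ (Pi.single f 1)) f'
    rw [LinearMap.comp_apply, LinearMap.id_apply] at h1
    have h2 : φ (Pi.single f 1) = ∑ e, R f e • (Pi.single e 1 : E → ℤ) := by
      funext e
      rw [hφ, Finset.sum_apply]
      simp [Pi.single_apply]
    rw [h2, map_sum, Finset.sum_apply] at h1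
    simp only [map_smul, Pi.smul_apply, smul_eq_mul] at h1
    have h3 : ∑ e, R f e * (Matrix.of (fun e f' => ψ (Pi.single e 1) f')) e f'
        = (Pi.single f 1 : F → ℤ) f' := h1
    rw [h3, Pi.single_apply]
    by_cases hff : f = f'
    · simp [hff]
    · rw [if_neg hff, if_neg (Ne.symm hff)]
      simp
  · have : Fact m.Prime := ⟨hm⟩
    have hi := h m dvd_rfl
    obtain ⟨ψ, hψ⟩ := LinearMap.exists_leftInverse_of_injective
      (Fintype.linearCombination (ZMod m) (fun f : F => (fun e : E => (R f e : ZMod m))))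
      (LinearMap.ker_eq_bot.2 (linearIndependent_iff_injective_fintypeLinearCombination.1 hi))
    have hc : ∀ e f', ∃ c : ℤ, (c : ZMod m) = ψ (Pi.single e 1) f' := fun e f' =>
      ZMod.intCast_surjective _
    choose C hC using hc
    refine ⟨Matrix.of C, fun f f' => ?_⟩
    have h1 := congrFun (LinearMap.congr_fun hψ (Pi.single f 1)) f'
    rw [LinearMap.comp_apply, Fintype.linearCombination_apply_single, one_smul,
      LinearMap.id_apply] at h1
    have h2 : (fun e : E => (R f e : ZMod m))
        = ∑ e, (R f e : ZMod m) • (Pi.single e 1 : E → ZMod m) := by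
      funext e
      rw [Finset.sum_apply]
      simp [Pi.single_apply]
    rw [h2, map_sum, Finset.sum_apply] at h1
    simp only [map_smul, Pi.smul_apply, smul_eq_mul] at h1
    push_cast
    simp only [Matrix.of_apply, hC]
    rw [h1, Pi.single_apply]
    simp only [eq_comm]

end EqG
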