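import Pool.Agent.EqG.Path

/-!
# Relators, derivations and stages of a tower
-/

namespace EqG

open Equiv

universe u

/-- names of the relators -/
inductive Rl (A : Type*) (ι : Type*) where
  | tri (a b : A) : Rl A ι
  | eq (i : ι) : Rl A ι

section

variable {A : Type*} [Group A] {ι : Type*} (L : ι → List ((A ⊕ ι) × Bool))

/-- the words of the relators -/
def rw' : Rl A ι → List ((A ⊕ ι) × Bool)
  | Rl.tri a b => [(Sum.inl a, true), (Sum.inl b, true), (Sum.inl (a * b), false)]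
  | Rl.eq i => L i

/-- one conjugate of a relator -/
abbrev Cj (A ι : Type*) := List ((A ⊕ ι) × Bool) × Rl A ι × Bool

/-- the element of the free group -/
def cj (d : Cj A ι) : FreeGroup (A ⊕ ι) :=
  (FreeGroup.mk d.1)⁻¹ * (cond d.2.2 (FreeGroup.mk (rw' L d.2.1)) (FreeGroup.mk (rw' L d.2.1))⁻¹)
    * FreeGroup.mk d.1

/-- the product of the conjugates -/
def cjs (D : List (Cj A ι)) : FreeGroup (A ⊕ ι) := (D.map (cj L)).prod

lemma cjs_append (D D' : List (Cj A ι)) : cjs L (D ++ D') = cjs L D * cjs L D' := by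
  rw [cjs, List.map_append, List.prod_append]; rfl

/-- the set of relators -/
def rels : Set (FreeGroup (A ⊕ ι)) := Set.range (fun r : Rl A ι => FreeGroup.mk (rw' L r))

/-- elements of the normal closure are products of conjugates -/
lemma exists_cjs {x : FreeGroup (A ⊕ ι)} (hx : x ∈ Subgroup.normalClosure (rels L)) :
    ∃ D : List (Cj A ι), x = cjs L D := by
  have key : ∀ y ∈ Group.conjugatesOfSet (rels L), ∀ b : Bool,
      ∃ d : Cj A ι, cj L d = cond b y y⁻¹ := by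
    intro y hy b
    rw [Group.mem_conjugatesOfSet_iff] at hy
    obtain ⟨r, ⟨r', rfl⟩, hy⟩ := hy
    obtain ⟨c, hc⟩ := isConj_iff.1 hy
    obtain ⟨t, ht⟩ : ∃ t, FreeGroup.mk t = c⁻¹ := Quot.exists_rep (c⁻¹ : FreeGroup (A ⊕ ι))
    refine ⟨(t, r', b), ?_⟩
    simp only at hc
    rw [cj, ht, ← hc]
    cases b
    · simp [mul_assoc]
    · simp
  rw [Subgroup.normalClosure] at hx
  induction hx using Subgroup.closure_induction with
  | mem y hy =>
    obtain ⟨d, hd⟩ := key y hy true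
    exact ⟨[d], by simp [cjs, hd]⟩
  | one => exact ⟨[], by simp [cjs]⟩
  | mul y z _ _ hy hz =>
    obtain ⟨D, rfl⟩ := hy
    obtain ⟨D', rfl⟩ := hz
    exact ⟨D ++ D', (cjs_append L D D').symm⟩
  | inv y _ hy =>
    obtain ⟨D, rfl⟩ := hy
    refine ⟨(D.map (fun d => (d.1, d.2.1, !d.2.2))).reverse, ?_⟩
    rw [cjs, cjs, List.prod_inv_reverse, List.map_reverse, List.map_map, List.map_map]
    congr 2
    refine List.map_congr_left (fun d _ => ?_)
    obtain ⟨t, r, b⟩ := d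
    cases b <;> simp [cj]

variable {Ω : Type*} (σ : A ⊕ ι → Perm Ω) (v₀ : Ω) (D : List (Cj A ι))

/-- the relators of the derivation are closed paths -/
def Closed : Prop := ∀ d ∈ D, act σ (rw' L d.2.1) (act σ d.1 v₀) = act σ d.1 v₀

variable {L σ v₀ D}

lemma Closed.cjs_fix (h : Closed L σ v₀ D) : FreeGroup.lift σ (cjs L D) v₀ = v₀ := by
  induction D with
  | nil => simp [cjs]
  | cons d D ih =>
    have h1 := ih (fun d' hd' => h d' (List.mem_cons_of_mem _ hd'))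
    have h2 := h d List.mem_cons_self
    have h3 : cjs L (d :: D) = cj L d * cjs L D := by simp [cjs]
    rw [h3, map_mul, Perm.mul_apply, h1, cj, map_mul, map_mul, Perm.mul_apply, Perm.mul_apply,
      lift_mk, map_inv, Perm.inv_eq_iff_eq, lift_mk]
    obtain ⟨t, r, b⟩ := d
    cases b
    · change FreeGroup.lift σ (FreeGroup.mk (rw' L r))⁻¹ _ = _
      rw [map_inv, Perm.inv_eq_iff_eq, lift_mk]
      exact h2.symm
    · change FreeGroup.lift σ (FreeGroup.mk (rw' L r)) _ = _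
      rw [lift_mk]
      exact h2

variable {Γ : Type*} [Group Γ]

lemma Closed.sk (h : Closed L σ v₀ D) {θ : Ω × (A ⊕ ι) → Γ}
    (hθ : ∀ d ∈ D, pth σ θ (rw' L d.2.1) (act σ d.1 v₀) = 1) :
    Closed L (sk σ θ) (v₀, (1 : Γ)) D := by
  intro d hd
  rw [act_sk, act_sk]
  simp only
  rw [hθ d hd, one_mul, h d hd]

/-- the value of the first letter -/
lemma Closed.value (h : Closed L σ v₀ D) {g : A}
    (hD : FreeGroup.of (Sum.inl g) = cjs L D) {θ : Ω × (A ⊕ ι) → Γ}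
    (hθ : ∀ d ∈ D, pth σ θ (rw' L d.2.1) (act σ d.1 v₀) = 1) :
    σ (Sum.inl g) v₀ = v₀ ∧ θ (v₀, Sum.inl g) = 1 := by
  have h1 := (h.sk hθ).cjs_fix
  rw [← hD, FreeGroup.lift_apply_of, sk_apply] at h1
  simp only [mul_one, Prod.mk.injEq] at h1
  exact h1

variable (L σ v₀ D)

/-- the visited vertices -/
def Vs : List Ω := v₀ :: D.flatMap (fun d => vV σ (rw' L d.2.1 ++ d.1) v₀)

/-- the visited edges -/
def Es (g : A) : List (Ω × (A ⊕ ι)) :=
  (v₀, Sum.inl g) :: D.flatMap (fun d => vE σ (rw' L d.2.1 ++ d.1) v₀)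

/-- the length of the derivation -/
def len : ℕ := (D.map (fun d => (rw' L d.2.1 ++ d.1).length + 1)).sum + 1

lemma length_Vs : (Vs L σ v₀ D).length = len L D := by
  rw [Vs, List.length_cons, List.length_flatMap, len]
  congr 3
  funext d
  exact length_vV σ _ _

/-- the number of visited vertices -/
noncomputable def cV : ℕ := {x | x ∈ Vs L σ v₀ D}.ncard

lemma cV_le : cV L σ v₀ D ≤ len L D := by
  classical
  rw [← length_Vs L σ v₀ D, cV]
  have h1 : {x | x ∈ Vs L σ v₀ D} = ((Vs L σ v₀ D).toFinset : Set Ω) := by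
    ext x; simp
  rw [h1, Set.ncard_coe_finset]
  exact List.toFinset_card_le _

variable {L σ v₀ D}

lemma Closed.fst_Vs (θ : Ω × (A ⊕ ι) → Γ) :
    (Vs L (EqG.sk σ θ) (v₀, (1 : Γ)) D).map Prod.fst = Vs L σ v₀ D := by
  rw [Vs, Vs, List.map_cons, List.map_flatMap]
  congr 2
  funext d
  exact map_fst_vV σ θ _ (v₀, 1)

/-- a cocycle which is not a coboundary increases the number of vertices -/
lemma Closed.cV_lt (h : Closed L σ v₀ D) {g : A}
    (hD : FreeGroup.of (Sum.inl g) = cjs L D) {θ : Ω × (A ⊕ ι) → Γ}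
    (hθ : ∀ d ∈ D, pth σ θ (rw' L d.2.1) (act σ d.1 v₀) = 1)
    (hn : ¬ ∃ f : Ω → Γ, ∀ e ∈ Es L σ v₀ D g, f (σ e.2 e.1) = θ e * f e.1) :
    cV L σ v₀ D < cV L (EqG.sk σ θ) (v₀, (1 : Γ)) D := by
  have h1 : Prod.fst '' {x | x ∈ Vs L (EqG.sk σ θ) (v₀, (1 : Γ)) D}
      = {x | x ∈ Vs L σ v₀ D} := by
    rw [← fst_Vs (L := L) (σ := σ) (v₀ := v₀) (D := D) θ]
    ext x
    simp
  have hfin : {x | x ∈ Vs L (EqG.sk σ θ) (v₀, (1 : Γ)) D}.Finite := List.finite_toSet _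
  by_contra hcon
  rw [not_lt, cV, cV, ← h1] at hcon
  have h2 : Set.InjOn Prod.fst {x | x ∈ Vs L (EqG.sk σ θ) (v₀, (1 : Γ)) D} := by
    rw [← Set.ncard_image_iff hfin]
    exact le_antisymm (Set.ncard_image_le hfin) hcon
  apply hn
  -- the section
  have h3 : ∀ v : Ω, ∃ μ : Γ, v ∈ Vs L σ v₀ D → (v, μ) ∈ Vs L (EqG.sk σ θ) (v₀, (1 : Γ)) D := by
    intro v
    by_cases hv : v ∈ Vs L σ v₀ D
    · rw [← fst_Vs (L := L) (σ := σ) (v₀ := v₀) (D := D) θ, List.mem_map] at hv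
      obtain ⟨⟨v', μ⟩, hv1, rfl⟩ := hv
      exact ⟨μ, fun _ => hv1⟩
    · exact ⟨1, fun h => absurd h hv⟩
  choose f hf using h3
  refine ⟨f, fun e he => ?_⟩
  have huniq : ∀ v μ, (v, μ) ∈ Vs L (EqG.sk σ θ) (v₀, (1 : Γ)) D → f v = μ := by
    intro v μ hv
    have hv' : v ∈ Vs L σ v₀ D := by
      rw [← fst_Vs (L := L) (σ := σ) (v₀ := v₀) (D := D) θ, List.mem_map]
      exact ⟨_, hv, rfl⟩
    have h4 : (v, f v) = (v, μ) := h2 (hf v hv') hv rfl
    exact congrArg Prod.snd h4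
  rw [Es, List.mem_cons] at he
  rcases he with rfl | he
  · obtain ⟨h5, h6⟩ := h.value hD hθ
    simp only
    rw [h5, h6, one_mul]
  · rw [List.mem_flatMap] at he
    obtain ⟨d, hd, he⟩ := he
    obtain ⟨μ, h5, h6, -⟩ := exists_lift_edge σ θ _ (v₀, (1 : Γ)) he
    have h7 : (e.1, μ) ∈ Vs L (EqG.sk σ θ) (v₀, (1 : Γ)) D :=
      List.mem_cons_of_mem _ (List.mem_flatMap.2 ⟨d, hd, h5⟩)
    have h8 : (σ e.2 e.1, θ e * μ) ∈ Vs L (EqG.sk σ θ) (v₀, (1 : Γ)) D :=
      List.mem_cons_of_mem _ (List.mem_flatMap.2 ⟨d, hd, h6⟩)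
    rw [huniq _ _ h7, huniq _ _ h8]

end

end EqG
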