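import Pool.Agent.EqG.Indep

/-!
# The tower
-/

namespace EqG

open Equiv

section

variable {A : Type*} [Group A] {ι : Type*} (L : ι → List ((A ⊕ ι) × Bool))
  (D : List (Cj A ι)) (g : A) (m : ℕ)

/-- a stage of the tower -/
structure Stg where
  Ω : Type
  σ : A ⊕ ι → Perm Ω
  v₀ : Ω
  closed : Closed L σ v₀ D
  ind : ∀ q : ℕ, ∀ [Fact q.Prime], q ∣ m → Ind L σ v₀ D (ZMod q)

variable {L D g m}

/-- all cocycles with values in `ℤ/m` are coboundaries -/
def Stg.Top (g : A) (s : Stg L D m) : Prop :=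
  ∀ c : s.Ω × (A ⊕ ι) → Multiplicative (ZMod m),
    (∀ d ∈ D, pth s.σ c (rw' L d.2.1) (act s.σ d.1 s.v₀) = 1) →
    ∃ f : s.Ω → Multiplicative (ZMod m), ∀ e ∈ Es L s.σ s.v₀ D g, f (s.σ e.2 e.1) = c e * f e.1

lemma augReg_of_dvd (hm : m = 0 ∨ m.Prime) (q : ℕ) [hq : Fact q.Prime] (h : q ∣ m) :
    AugReg (ZMod q) (Multiplicative (ZMod m)) := by
  rcases hm with rfl | hm
  · exact augReg_int (ZMod q)
  · have h1 := (Nat.prime_dvd_prime_iff_eq hq.out hm).1 h
    subst h1
    exact augReg_zmod q

/-- **Existence of a top stage.** -/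
theorem exists_top (hm : m = 0 ∨ m.Prime) (hD : FreeGroup.of (Sum.inl g) = cjs L D)
    (s : Stg L D m) : ∃ s' : Stg L D m, s'.Top g := by
  have key : ∀ N : ℕ, ∀ s : Stg L D m, len L D - cV L s.σ s.v₀ D ≤ N →
      ∃ s' : Stg L D m, s'.Top g := by
    intro N
    induction N with
    | zero =>
      intro s hs
      by_cases ht : s.Top g
      · exact ⟨s, ht⟩
      · exfalso
        rw [Stg.Top] at ht
        push Not at ht
        obtain ⟨c, hc, hf⟩ := ht
        have h1 := s.closed.cV_lt hD hc (by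
          rintro ⟨f, hf'⟩
          obtain ⟨e, he, hne⟩ := hf f
          exact hne (hf' e he))
        have h2 := cV_le L (sk s.σ c) (s.v₀, 1) D
        omega
    | succ N ih =>
      intro s hs
      by_cases ht : s.Top g
      · exact ⟨s, ht⟩
      · rw [Stg.Top] at ht
        push Not at ht
        obtain ⟨c, hc, hf⟩ := ht
        have h1 := s.closed.cV_lt hD hc (by
          rintro ⟨f, hf'⟩
          obtain ⟨e, he, hne⟩ := hf f
          exact hne (hf' e he))
        have h2 := cV_le L (sk s.σ c) (s.v₀, 1) D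
        let s' : Stg L D m :=
          { Ω := s.Ω × Multiplicative (ZMod m)
            σ := sk s.σ c
            v₀ := (s.v₀, 1)
            closed := s.closed.sk hc
            ind := fun q _ hq => Ind.sk L s.σ s.v₀ D (ZMod q) (augReg_of_dvd hm q hq)
              (s.ind q hq) c }
        exact ih s' (by
          change len L D - cV L (sk s.σ c) (s.v₀, 1) D ≤ N
          omega)
  exact key _ s le_rfl

end

end EqG
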